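import Mathlib

/-!
Definitions used in the statement: transcendental entire functions, complementary components in the
Riemann sphere, infinite inner connectivity.
-/

set_option autoImplicit false

open Filter Topology Metric Set Polynomial

namespace Pool.Agent.TH224.SC

/-- `f` is a transcendental entire function. -/
def TransEntire (f : ℂ → ℂ) : Prop :=
  Differentiable ℂ f ∧ ¬ ∃ p : ℂ[X], ∀ z, f z = p.eval z

/-- The set of components of the complement of `A` in the Riemann sphere `OnePoint ℂ`. -/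
def SphereHoles (A : Set ℂ) : Set (Set (OnePoint ℂ)) :=
  {C | ∃ x ∈ (((↑) : ℂ → OnePoint ℂ) '' A)ᶜ,
    C = connectedComponentIn (((↑) : ℂ → OnePoint ℂ) '' A)ᶜ x}

/-- `U` (with images `U_n = f^n(U)`) has infinite inner connectivity: for every `z₀ ∈ U`, with
`r_n = |f^n(z₀)|`, there is `α > 0` such that for all large `n` some annulus
`{r_n^a < |z| < r_n^b}` with `0 < a < 1 - α < 1 + α < b` lies in `U_n`, and the complement of
`U_n ∩ {|z| < r_n}` in the Riemann sphere has infinitely many components. -/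
def InfInner (f : ℂ → ℂ) (U : Set ℂ) : Prop :=
  ∀ z₀ ∈ U, ∃ α : ℝ, 0 < α ∧ ∀ᶠ n in atTop,
    (∃ a b : ℝ, 0 < a ∧ a < 1 - α ∧ 1 + α < b ∧
      {z : ℂ | ‖f^[n] z₀‖ ^ a < ‖z‖ ∧ ‖z‖ < ‖f^[n] z₀‖ ^ b} ⊆ f^[n] '' U) ∧
    (SphereHoles (f^[n] '' U ∩ ball 0 ‖f^[n] z₀‖)).Infinite

end Pool.Agent.TH224.SC
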