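import Mathlib

/-!
Components of closed sets in the plane: clopen neighbourhoods, and images of components of
preimages under open maps.
-/

set_option autoImplicit false

open Filter Topology Metric Set

namespace Pool.Agent.TH224.SC

/-- A preconnected set that contains a point of an open set and misses its frontier lies in it. -/
theorem subset_of_frontier {X : Set ℂ} (hX : IsPreconnected X) {N : Set ℂ} (hN : IsOpen N) {x : ℂ}
    (hx : x ∈ X) (hxN : x ∈ N) (hfr : ∀ z ∈ frontier N, z ∉ X) : X ⊆ N := by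
  apply hX.subset_of_closure_inter_subset hN ⟨x, hx, hxN⟩
  rintro z ⟨hz, hzX⟩
  by_contra h
  exact hfr z (by rw [hN.frontier_eq]; exact ⟨hz, h⟩) hzX

/-- Clopen neighbourhoods of a bounded component of a closed set. -/
theorem exists_clopen {S N : Set ℂ} (hS : IsClosed S) (hN : IsOpen N) (hb : Bornology.IsBounded N)
    (hfr : ∀ z ∈ frontier N, z ∉ S) {x : ℂ} (hx : x ∈ S) (hxN : x ∈ N) {O : Set ℂ} (hO : IsOpen O)
    (hXO : connectedComponentIn S x ⊆ O) :
    ∃ W : Set ℂ, IsOpen W ∧ W ⊆ N ∧ x ∈ W ∧ IsCompact (S ∩ W) ∧ S ∩ W ⊆ O := by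
  set Z : Set ℂ := S ∩ closure N with hZ
  have hZN : Z = S ∩ N := by
    apply Set.Subset.antisymm
    · rintro z ⟨h1, h2⟩
      refine ⟨h1, ?_⟩
      by_contra h
      exact hfr z (by rw [hN.frontier_eq]; exact ⟨h2, h⟩) h1
    · rintro z ⟨h1, h2⟩
      exact ⟨h1, subset_closure h2⟩
  have hZc : IsCompact Z := (hb.isCompact_closure).inter_left hS
  have : CompactSpace Z := isCompact_iff_compactSpace.1 hZc
  have hxZ : x ∈ Z := ⟨hx, subset_closure hxN⟩
  have h1 := connectedComponent_eq_iInter_isClopen (⟨x, hxZ⟩ : Z)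
  have h2 : connectedComponent (⟨x, hxZ⟩ : Z) ⊆ Subtype.val ⁻¹' O := by
    intro z hz
    apply hXO
    have h3 : IsPreconnected (Subtype.val '' connectedComponent (⟨x, hxZ⟩ : Z)) :=
      isPreconnected_connectedComponent.image _ continuous_subtype_val.continuousOn
    apply h3.subset_connectedComponentIn ⟨_, mem_connectedComponent, rfl⟩ _ ⟨z, hz, rfl⟩
    rintro _ ⟨w, -, rfl⟩
    exact w.2.1
  have hdir : Directed (· ⊇ ·) (fun s : { s : Set Z // IsClopen s ∧ (⟨x, hxZ⟩ : Z) ∈ s } => (s : Set Z)) := by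
    rintro ⟨a, ha, ha'⟩ ⟨b, hb, hb'⟩
    exact ⟨⟨a ∩ b, ha.inter hb, ha', hb'⟩, inter_subset_left, inter_subset_right⟩
  have : Nonempty { s : Set Z // IsClopen s ∧ (⟨x, hxZ⟩ : Z) ∈ s } :=
    ⟨⟨univ, isClopen_univ, mem_univ _⟩⟩
  obtain ⟨⟨V, hV, hxV⟩, hVO⟩ := exists_subset_nhds_of_isCompact' hdir
    (fun s => s.2.1.isClosed.isCompact) (fun s => s.2.1.isClosed)
    (U := Subtype.val ⁻¹' O) (by
      intro z hz
      rw [← h1] at hz
      exact (hO.preimage continuous_subtype_val).mem_nhds (h2 hz))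
  obtain ⟨W0, hW0, hVW⟩ := isOpen_induced_iff.1 hV.isOpen
  have hSW : S ∩ (W0 ∩ N) = Subtype.val '' V := by
    rw [← hVW, Subtype.image_preimage_coe, hZN]
    ext z; simp only [mem_inter_iff]; tauto
  refine ⟨W0 ∩ N, hW0.inter hN, inter_subset_right, ⟨?_, hxN⟩, ?_, ?_⟩
  · have : (⟨x, hxZ⟩ : Z) ∈ Subtype.val ⁻¹' W0 := by rw [hVW]; exact hxV
    exact this
  · rw [hSW]
    exact hV.isClosed.isCompact.image continuous_subtype_val
  · rw [hSW]
    rintro _ ⟨z, hz, rfl⟩
    exact hVO hz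

/-- Under an open map, a bounded component of the preimage of a closed connected set maps onto
it. -/
theorem conf {G : ℂ → ℂ} (hc : Continuous G) (ho : IsOpenMap G) {E : Set ℂ}
    (hE : IsPreconnected E) (hEc : IsClosed E) {N : Set ℂ} (hN : IsOpen N)
    (hb : Bornology.IsBounded N) (hfr : ∀ z ∈ frontier N, G z ∉ E) {a : ℂ} (ha : a ∈ N)
    (hGa : G a ∈ E) :
    connectedComponentIn (G ⁻¹' E) a ⊆ N ∧
      ∀ e ∈ E, ∃ z ∈ connectedComponentIn (G ⁻¹' E) a, G z = e := by
  have hX : IsPreconnected (connectedComponentIn (G ⁻¹' E) a) :=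
    isPreconnected_connectedComponentIn
  have haX : a ∈ connectedComponentIn (G ⁻¹' E) a := mem_connectedComponentIn hGa
  refine ⟨subset_of_frontier hX hN haX ha fun z hz hzX =>
    hfr z hz (connectedComponentIn_subset (G ⁻¹' E) a hzX), ?_⟩
  intro e he
  by_contra hcon
  push Not at hcon
  have hO : IsOpen {z : ℂ | G z ≠ e} := isOpen_ne_fun hc continuous_const
  obtain ⟨W, hW, hWN, haW, hcomp, hsub⟩ := exists_clopen (hEc.preimage hc) hN hb
    (fun z hz h => hfr z hz h) hGa ha hO (fun z hz => hcon z hz)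
  have hY : IsClosed (G '' (G ⁻¹' E ∩ W)) := (hcomp.image hc).isClosed
  obtain ⟨w, hwE, hw1, hw2⟩ := hE (G '' W) (G '' (G ⁻¹' E ∩ W))ᶜ (ho _ hW) hY.isOpen_compl (by
      intro w hw
      by_cases h : w ∈ G '' (G ⁻¹' E ∩ W)
      · obtain ⟨z, hz, rfl⟩ := h
        exact Or.inl ⟨z, hz.2, rfl⟩
      · exact Or.inr h) ⟨G a, hGa, a, haW, rfl⟩ ⟨e, he, by
        rintro ⟨z, hz, hze⟩
        exact hsub hz hze⟩
  obtain ⟨z, hz, rfl⟩ := hw1
  exact hw2 ⟨z, ⟨hwE, hz⟩, rfl⟩

/-- If `{x}` is a component of a closed set, small neighbourhoods of `x` with frontier off the set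
exist. -/
theorem exists_sep {S : Set ℂ} (hS : IsClosed S) {x : ℂ} (hx : x ∈ S)
    (hX : connectedComponentIn S x = {x}) {δ : ℝ} (hδ : 0 < δ) :
    ∃ N : Set ℂ, IsOpen N ∧ x ∈ N ∧ closure N ⊆ ball x δ ∧ ∀ z ∈ frontier N, z ∉ S := by
  set S' : Set ℂ := S ∩ closedBall x (δ / 2) with hS'
  have hS'c : IsClosed S' := hS.inter isClosed_closedBall
  have hx' : x ∈ S' := ⟨hx, mem_closedBall_self (by linarith)⟩
  have hcomp : connectedComponentIn S' x ⊆ ball x (δ / 3) := by
    intro z hz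
    have h1 : z ∈ connectedComponentIn S x :=
      connectedComponentIn_mono x inter_subset_left hz
    rw [hX] at h1
    rw [mem_singleton_iff.1 h1]
    exact mem_ball_self (by linarith)
  obtain ⟨W, hW, hWN, hxW, hWc, hWO⟩ := exists_clopen hS'c (isOpen_ball (x := x) (ε := δ))
    isBounded_ball (fun z hz hzS => by
      have h2 : z ∈ sphere x δ := frontier_ball_subset_sphere hz
      have h3 := hzS.2
      rw [mem_sphere] at h2
      rw [mem_closedBall] at h3
      linarith) hx' (mem_ball_self hδ) isOpen_ball hcomp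
  -- `S ∩ (W ∩ ball x (δ/2))` is compact
  set W1 : Set ℂ := W ∩ ball x (δ / 2) with hW1
  have hW1o : IsOpen W1 := hW.inter isOpen_ball
  have hSW : S ∩ W1 = S' ∩ W := by
    apply Set.Subset.antisymm
    · rintro z ⟨h1, h2, h3⟩
      exact ⟨⟨h1, ball_subset_closedBall h3⟩, h2⟩
    · rintro z hz
      have h4 := hWO hz
      refine ⟨hz.1.1, hz.2, ?_⟩
      exact ball_subset_ball (by linarith) h4
  have hcpt : IsCompact (S ∩ W1) := by rw [hSW]; exact hWc
  -- a smaller open neighbourhood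
  obtain ⟨N, hNo, hN1, hN2⟩ := normal_exists_closure_subset hcpt.isClosed hW1o inter_subset_right
  refine ⟨N, hNo, hN1 ⟨hx, hxW, mem_ball_self (by linarith)⟩, ?_, ?_⟩
  · refine hN2.trans (inter_subset_right.trans (ball_subset_ball (by linarith)))
  · intro z hz hzS
    rw [hNo.frontier_eq] at hz
    exact hz.2 (hN1 ⟨hzS, hN2 hz.1⟩)

end Pool.Agent.TH224.SC
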