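import Mathlib
import Pool.Agent.Helper240.ZFM.Q5b

/-!
Separation of a compact set with connected complement from another compact set by the modulus of a
polynomial with all its roots in the first set (Fekete points).
-/

set_option autoImplicit false

open Filter Topology Metric Set Polynomial

namespace Pool.Agent.TH224.SC

/-- product over ordered pairs -/
noncomputable def GG {M : ℕ} (w : Fin M → ℂ) : ℝ := ∏ a, ∏ b ∈ Finset.univ.erase a, ‖w a - w b‖

theorem GG_split {M : ℕ} (w : Fin M → ℂ) (i : Fin M) :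
    GG w = (∏ b ∈ Finset.univ.erase i, ‖w i - w b‖) ^ 2 *
      ∏ a ∈ Finset.univ.erase i, ∏ b ∈ (Finset.univ.erase a).erase i, ‖w a - w b‖ := by
  unfold GG
  rw [← Finset.mul_prod_erase _ _ (Finset.mem_univ i)]
  have h1 : ∏ a ∈ Finset.univ.erase i, ∏ b ∈ Finset.univ.erase a, ‖w a - w b‖ =
      ∏ a ∈ Finset.univ.erase i, (‖w a - w i‖ * ∏ b ∈ (Finset.univ.erase a).erase i, ‖w a - w b‖) := by
    refine Finset.prod_congr rfl fun a ha => ?_
    rw [← Finset.mul_prod_erase (Finset.univ.erase a) _ (Finset.mem_erase.mpr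
      ⟨(Finset.ne_of_mem_erase ha).symm, Finset.mem_univ i⟩)]
  rw [h1, Finset.prod_mul_distrib]
  have h2 : ∏ a ∈ Finset.univ.erase i, ‖w a - w i‖ = ∏ a ∈ Finset.univ.erase i, ‖w i - w a‖ :=
    Finset.prod_congr rfl fun a _ => norm_sub_rev _ _
  rw [h2]; ring

/-- Fekete points. -/
theorem exists_fekete {K : Set ℂ} (hK : IsCompact K) (hinf : K.Infinite) (n : ℕ) :
    ∃ x : Fin n → ℂ, (∀ i, x i ∈ K) ∧ Function.Injective x ∧
      ∀ y ∈ K, ∀ i, ∏ j ∈ Finset.univ.erase i, ‖y - x j‖ ≤
        ∏ j ∈ Finset.univ.erase i, ‖x i - x j‖ := by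
  have : CompactSpace K := isCompact_iff_compactSpace.mp hK
  have : Infinite K := hinf.to_subtype
  obtain ⟨e⟩ : Nonempty (Fin n ↪ K) := by
    have h1 : Function.Injective (fun i : Fin n => Infinite.natEmbedding K i) := by
      intro a b hab
      exact Fin.ext ((Infinite.natEmbedding K).injective hab)
    exact ⟨⟨_, h1⟩⟩
  set f : (Fin n → K) → ℝ := fun w => GG (fun i => (w i : ℂ)) with hf
  have hfc : Continuous f := by
    rw [hf]
    unfold GG
    apply continuous_finsetProd
    intro i _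
    apply continuous_finsetProd
    intro j _
    fun_prop
  obtain ⟨w, -, hwmax⟩ := isCompact_univ.exists_isMaxOn (⟨e, mem_univ _⟩ : (univ : Set (Fin n → K)).Nonempty)
    hfc.continuousOn
  have hmax : ∀ w', f w' ≤ f w := fun w' => hwmax (mem_univ w')
  have hpos : 0 < f w := by
    refine lt_of_lt_of_le ?_ (hmax e)
    simp only [hf, GG]
    apply Finset.prod_pos
    intro i _
    apply Finset.prod_pos
    intro j hj
    rw [norm_pos_iff, sub_ne_zero]
    intro h
    exact (Finset.ne_of_mem_erase hj) (e.injective (Subtype.ext h)).symm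
  refine ⟨fun i => (w i : ℂ), fun i => (w i).2, ?_, ?_⟩
  · intro a b hab
    by_contra hne
    have : f w = 0 := by
      simp only [hf, GG]
      apply Finset.prod_eq_zero (Finset.mem_univ a)
      apply Finset.prod_eq_zero (Finset.mem_erase.2 ⟨Ne.symm hne, Finset.mem_univ b⟩)
      simp only at hab
      rw [hab, sub_self, norm_zero]
    linarith
  · intro y hy i
    have h1 := hmax (Function.update w i ⟨y, hy⟩)
    have h2 : (fun j => ((Function.update w i ⟨y, hy⟩ j : K) : ℂ)) =
        Function.update (fun i => (w i : ℂ)) i y := by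
      funext j
      by_cases hj : j = i
      · subst hj; simp
      · rw [Function.update_of_ne hj, Function.update_of_ne hj]
    simp only [hf] at h1
    rw [h2, GG_split _ i, GG_split (fun i => (w i : ℂ)) i] at h1
    have e1 : ∏ b ∈ Finset.univ.erase i, ‖Function.update (fun i => (w i : ℂ)) i y i -
        Function.update (fun i => (w i : ℂ)) i y b‖ =
        ∏ b ∈ Finset.univ.erase i, ‖y - w b‖ := by
      refine Finset.prod_congr rfl fun b hb => ?_
      rw [Function.update_self, Function.update_of_ne (Finset.ne_of_mem_erase hb)]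
    have e2 : ∏ a ∈ Finset.univ.erase i, ∏ b ∈ (Finset.univ.erase a).erase i,
        ‖Function.update (fun i => (w i : ℂ)) i y a - Function.update (fun i => (w i : ℂ)) i y b‖ =
        ∏ a ∈ Finset.univ.erase i, ∏ b ∈ (Finset.univ.erase a).erase i, ‖(w a : ℂ) - w b‖ := by
      refine Finset.prod_congr rfl fun a ha => Finset.prod_congr rfl fun b hb => ?_
      rw [Function.update_of_ne (Finset.ne_of_mem_erase ha),
        Function.update_of_ne (Finset.ne_of_mem_erase hb)]
    rw [e1, e2] at h1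
    set W : ℝ := ∏ a ∈ Finset.univ.erase i, ∏ b ∈ (Finset.univ.erase a).erase i,
      ‖(w a : ℂ) - w b‖ with hW
    have hW0 : 0 ≤ W := Finset.prod_nonneg fun _ _ => Finset.prod_nonneg fun _ _ => norm_nonneg _
    have hWpos : 0 < W := by
      rcases hW0.eq_or_lt with h0 | h0
      · exfalso
        have : f w = 0 := by
          simp only [hf]
          rw [GG_split _ i, ← hW, ← h0, mul_zero]
        linarith
      · exact h0
    have h2 := le_of_mul_le_mul_right h1 hWpos
    exact le_of_sq_le_sq h2 (Finset.prod_nonneg fun _ _ => norm_nonneg _)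

/-- a polynomial small on `K` and large near `w` -/
theorem exists_peak {K : Set ℂ} (hK : IsCompact K) (hKc : IsConnected Kᶜ) {w : ℂ} (hw : w ∉ K) :
    ∃ q : ℂ[X], (∀ z ∈ K, ‖q.eval z‖ ≤ 1 / 4) ∧ 4 < ‖q.eval w‖ := by
  obtain ⟨B, hB0, hB⟩ : ∃ B : ℝ, 0 < B ∧ ∀ z ∈ K, ‖z - w‖ ≤ B := by
    obtain ⟨B, hB⟩ := (hK.image (f := fun z => ‖z - w‖) (by fun_prop)).bddAbove
    exact ⟨max B 1, by positivity, fun z hz => (hB ⟨z, hz, rfl⟩).trans (le_max_left _ _)⟩
  have hne : ∀ z ∈ K, z - w ≠ 0 := fun z hz h => hw (sub_eq_zero.1 h ▸ hz)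
  obtain ⟨p, hp⟩ := ZFM.J_q5b.mergelyan hK hKc (fun z => 1 / (z - w))
    (by
      apply ContinuousOn.div continuousOn_const (by fun_prop)
      exact hne)
    (by
      apply DifferentiableOn.div (by fun_prop) (by fun_prop)
      exact fun z hz => hne z (interior_subset hz)) (1 / (32 * B)) (by positivity)
  refine ⟨C 8 * (1 - (X - C w) * p), ?_, ?_⟩
  · intro z hz
    have h1 := hp z hz
    have h2 : (C 8 * (1 - (X - C w) * p)).eval z = -(8 * (z - w) * (p.eval z - 1 / (z - w))) := by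
      simp only [eval_mul, eval_C, eval_sub, eval_one, eval_X]
      have := hne z hz
      field_simp
      ring
    rw [h2, norm_neg, norm_mul, norm_mul]
    have h3 : ‖(8 : ℂ)‖ = 8 := by norm_num
    rw [h3]
    calc 8 * ‖z - w‖ * ‖p.eval z - 1 / (z - w)‖ ≤ 8 * B * (1 / (32 * B)) := by
          gcongr
          · exact hB z hz
      _ = 1 / 4 := by field_simp; norm_num
  · simp only [eval_mul, eval_C, eval_sub, eval_one, eval_X, sub_self, zero_mul, sub_zero, mul_one]
    norm_num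

/-- Lagrange interpolation bound -/
theorem lagrange_bound {n : ℕ} {x : Fin n → ℂ} (hx : Function.Injective x) {q : ℂ[X]}
    (hq : q.natDegree < n) {z : ℂ} {d m A : ℝ} (hd : 0 < d) (hm : 0 < m)
    (hzx : ∀ i, d ≤ ‖z - x i‖) (hqA : ∀ i, ‖q.eval (x i)‖ ≤ A)
    (hmin : ∀ i, m ≤ ∏ j ∈ Finset.univ.erase i, ‖x i - x j‖) :
    ‖q.eval z‖ ≤ (∏ i, ‖z - x i‖) * (n * (A / (d * m))) := by
  have hn : 0 < n := by omega
  have hdeg : q.degree < (Finset.univ : Finset (Fin n)).card := by
    rw [Finset.card_univ, Fintype.card_fin]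
    rcases eq_or_ne q 0 with h | h
    · rw [h, degree_zero]; exact WithBot.bot_lt_coe _
    · rw [degree_eq_natDegree h]; exact_mod_cast hq
  have h1 := Lagrange.eq_interpolate (v := x) (s := Finset.univ) (hx.injOn) hdeg
  have hne : ∀ i ∈ (Finset.univ : Finset (Fin n)), z ≠ x i := by
    intro i _ h
    have := hzx i
    rw [h, sub_self, norm_zero] at this
    linarith
  have h2 : q.eval z = _ := (congrArg (fun p => eval z p) h1).trans
    (Lagrange.eval_interpolate_not_at_node _ hne)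
  rw [h2, norm_mul, Lagrange.eval_nodal, norm_prod]
  apply mul_le_mul_of_nonneg_left _ (Finset.prod_nonneg fun _ _ => norm_nonneg _)
  calc ‖∑ i, Lagrange.nodalWeight Finset.univ x i * (z - x i)⁻¹ * q.eval (x i)‖
      ≤ ∑ _i : Fin n, (A / (d * m)) := by
        apply norm_sum_le_of_le
        intro i _
        rw [norm_mul, norm_mul, Lagrange.nodalWeight, norm_prod, norm_inv]
        have e1 : ∏ j ∈ Finset.univ.erase i, ‖(x i - x j)⁻¹‖ =
            (∏ j ∈ Finset.univ.erase i, ‖x i - x j‖)⁻¹ := by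
          rw [← Finset.prod_inv_distrib]
          exact Finset.prod_congr rfl fun j _ => norm_inv _
        rw [e1]
        have hA : 0 ≤ A := (norm_nonneg _).trans (hqA i)
        calc (∏ j ∈ Finset.univ.erase i, ‖x i - x j‖)⁻¹ * ‖z - x i‖⁻¹ * ‖q.eval (x i)‖
            ≤ m⁻¹ * d⁻¹ * A := by
              gcongr
              · exact hmin i
              · exact hzx i
              · exact hqA i
          _ = A / (d * m) := by field_simp
    _ = n * (A / (d * m)) := by
        rw [Finset.sum_const, Finset.card_univ, Fintype.card_fin, nsmul_eq_mul]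

/-- **Separation by a polynomial with roots in `K`** -/
theorem exists_sepPoly {K W : Set ℂ} (hK : IsCompact K) (hinf : K.Infinite)
    (hKc : IsConnected Kᶜ) (hW : IsCompact W) (hdisj : Disjoint K W) :
    ∃ (n : ℕ) (x : Fin n → ℂ) (c : ℂ), 0 < n ∧ c ≠ 0 ∧ (∀ i, x i ∈ K) ∧
      (∀ z ∈ K, ‖c * ∏ i, (z - x i)‖ < 1 / 4) ∧ ∀ w ∈ W, 4 < ‖c * ∏ i, (w - x i)‖ := by
  classical
  -- diameter
  obtain ⟨B, hB0, hB⟩ : ∃ B : ℝ, 0 < B ∧ ∀ z ∈ K, ∀ y ∈ K, ‖z - y‖ ≤ B := by
    obtain ⟨B, hB⟩ := hK.isBounded.exists_norm_le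
    refine ⟨2 * |B| + 1, by positivity, fun z hz y hy => ?_⟩
    calc ‖z - y‖ ≤ ‖z‖ + ‖y‖ := norm_sub_le _ _
      _ ≤ B + B := add_le_add (hB z hz) (hB y hy)
      _ ≤ 2 * |B| + 1 := by linarith [le_abs_self B]
  -- distance
  obtain ⟨d, hd0, hd⟩ : ∃ d : ℝ, 0 < d ∧ ∀ z ∈ W, ∀ y ∈ K, d ≤ ‖z - y‖ := by
    obtain ⟨d, hd0, hd⟩ := (hdisj.symm).exists_thickenings hW hK.isClosed
    refine ⟨d, hd0, fun z hz y hy => ?_⟩
    by_contra h
    push Not at h
    have h1 : z ∈ thickening d W := self_subset_thickening hd0 W hz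
    have h2 : z ∈ thickening d K := by
      rw [mem_thickening_iff]
      exact ⟨y, hy, by rw [dist_eq_norm]; exact h⟩
    exact Set.disjoint_left.1 hd h1 h2
  -- finitely many peaks
  have hpk : ∀ w ∈ W, ∃ q : ℂ[X], (∀ z ∈ K, ‖q.eval z‖ ≤ 1 / 4) ∧ 4 < ‖q.eval w‖ := fun w hw =>
    exists_peak hK hKc (fun h => Set.disjoint_left.1 hdisj h hw)
  choose! q hq1 hq2 using hpk
  obtain ⟨t, htW, ht⟩ := hW.elim_nhds_subcover (fun w => {z | 4 < ‖(q w).eval z‖}) (fun w hw =>
    (isOpen_lt continuous_const (q w).continuous.norm).mem_nhds (hq2 w hw))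
  set D : ℕ := t.sup (fun w => (q w).natDegree) + 1 with hD
  have hDq : ∀ w ∈ t, (q w).natDegree ≤ D := fun w hw =>
    (Finset.le_sup (f := fun w => (q w).natDegree) hw).trans (Nat.le_succ _)
  -- choose `k`
  have hlim : ∃ k : ℕ, 16 * (B + 1) * ((k * D + 1 : ℕ) : ℝ) < d * 16 ^ k := by
    have h1 : Tendsto (fun k : ℕ => ((k : ℝ) * D + 1) / 16 ^ k) atTop (𝓝 0) := by
      have h2 := tendsto_pow_const_div_const_pow_of_one_lt 1 (r := (16 : ℝ)) (by norm_num)
      have h3 := tendsto_pow_const_div_const_pow_of_one_lt 0 (r := (16 : ℝ)) (by norm_num)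
      have h4 := (h2.mul_const (D : ℝ)).add h3
      rw [zero_mul, zero_add] at h4
      refine h4.congr fun k => ?_
      simp only [pow_one, pow_zero]
      field_simp
    have h5 := h1.eventually (gt_mem_nhds (show 0 < d / (16 * (B + 1)) by positivity))
    obtain ⟨k, hk⟩ := h5.exists
    refine ⟨k, ?_⟩
    rw [div_lt_div_iff₀ (by positivity) (by positivity)] at hk
    push_cast
    linarith
  obtain ⟨k, hk⟩ := hlim
  set n : ℕ := k * D + 1 with hn
  have hn0 : 0 < n := by omega
  obtain ⟨x, hxK, hxinj, hfek⟩ := exists_fekete hK hinf n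
  -- the minimum of the derivative
  have : Nonempty (Fin n) := ⟨⟨0, hn0⟩⟩
  obtain ⟨i₀, hi₀⟩ := Finite.exists_min (fun i : Fin n => ∏ j ∈ Finset.univ.erase i, ‖x i - x j‖)
  set m : ℝ := ∏ j ∈ Finset.univ.erase i₀, ‖x i₀ - x j‖ with hm
  have hm0 : 0 < m := by
    rw [hm]
    apply Finset.prod_pos
    intro j hj
    rw [norm_pos_iff, sub_ne_zero]
    intro h
    exact (Finset.ne_of_mem_erase hj) (hxinj h).symm
  set c : ℝ := 1 / (4 * (B + 1) * m) with hc
  have hc0 : 0 < c := by rw [hc]; positivity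
  have hnorm : ∀ z : ℂ, ‖(c : ℂ) * ∏ i, (z - x i)‖ = c * ∏ i, ‖z - x i‖ := by
    intro z
    rw [norm_mul, norm_prod, Complex.norm_real, Real.norm_eq_abs, abs_of_pos hc0]
  refine ⟨n, x, c, hn0, by exact_mod_cast hc0.ne', hxK, ?_, ?_⟩
  · intro z hz
    rw [hnorm, ← Finset.mul_prod_erase _ _ (Finset.mem_univ i₀)]
    have h1 := hfek z hz i₀
    have h2 := hB z hz (x i₀) (hxK i₀)
    calc c * (‖z - x i₀‖ * ∏ j ∈ Finset.univ.erase i₀, ‖z - x j‖)
        ≤ c * (B * m) := by
          gcongr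
      _ < 1 / 4 := by
          rw [hc, div_mul_eq_mul_div, one_mul, div_lt_div_iff₀ (by positivity) (by positivity)]
          nlinarith
  · intro w hw
    rw [hnorm]
    obtain ⟨v, hv, hwv⟩ := mem_iUnion₂.1 (ht hw)
    have hwv' : 4 < ‖(q v).eval w‖ := hwv
    have hdeg : ((q v) ^ k).natDegree < n := by
      rw [natDegree_pow]
      have := hDq v hv
      have := Nat.mul_le_mul_left k this
      omega
    have h1 := lagrange_bound hxinj hdeg hd0 hm0 (z := w) (A := (1 / 4) ^ k)
      (fun i => hd w hw _ (hxK i)) (fun i => by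
        rw [eval_pow, norm_pow]
        exact pow_le_pow_left₀ (norm_nonneg _) (hq1 v (htW v hv) _ (hxK i)) k) hi₀
    rw [eval_pow, norm_pow] at h1
    have h2 : (4 : ℝ) ^ k ≤ ‖(q v).eval w‖ ^ k := pow_le_pow_left₀ (by norm_num) hwv'.le k
    set P : ℝ := ∏ i, ‖w - x i‖ with hP
    have h3 : (4 : ℝ) ^ k ≤ P * (n * ((1 / 4) ^ k / (d * m))) := h2.trans h1
    have h4 : (16 : ℝ) ^ k * (d * m) ≤ P * n := by
      have e1 : (16 : ℝ) ^ k = 4 ^ k * 4 ^ k := by rw [← mul_pow]; norm_num
      have e2 : (1 / 4 : ℝ) ^ k = 1 / 4 ^ k := by rw [one_div, inv_pow, one_div]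
      rw [e2] at h3
      rw [e1]
      have h5 : (0 : ℝ) < 4 ^ k := by positivity
      calc (4 : ℝ) ^ k * 4 ^ k * (d * m) ≤ 4 ^ k * (P * (n * (1 / 4 ^ k / (d * m)))) * (d * m) := by
            gcongr
        _ = P * n := by field_simp
    have hn0' : (0 : ℝ) < n := by exact_mod_cast hn0
    have h6 : 16 * (B + 1) * (n : ℝ) * m < P * n := by
      calc 16 * (B + 1) * (n : ℝ) * m < d * 16 ^ k * m := by gcongr
        _ = 16 ^ k * (d * m) := by ring
        _ ≤ P * n := h4
    have h7 : 16 * (B + 1) * m < P := by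
      have : 16 * (B + 1) * m * n < P * n := by linarith
      exact lt_of_mul_lt_mul_right this hn0'.le
    rw [hc, div_mul_eq_mul_div, one_mul, lt_div_iff₀ (by positivity)]
    linarith

end Pool.Agent.TH224.SC
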