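import Pool.Agent.TH224.SC.Spiral
import Pool.Agent.TH224.SC.Fek

/-!
The lemniscate polynomial attached to the two spirals.
-/

set_option autoImplicit false

open Filter Topology Metric Set Polynomial

namespace Pool.Agent.TH224.SC

theorem preimage_closedBall (G : ℂ → ℂ) (s : ℝ) :
    G ⁻¹' closedBall 0 s = {z | ‖G z‖ ≤ s} := by
  ext z; simp

/-- a component of `{|p| ≤ s}` is bounded and maps onto the disc -/
theorem Vc_onto {G : ℂ → ℂ} (hc : Continuous G) (ho : IsOpenMap G) {s : ℝ} {N : Set ℂ}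
    (hN : IsOpen N) (hb : Bornology.IsBounded N) (hfr : ∀ z ∈ frontier N, s < ‖G z‖) {a : ℂ}
    (ha : a ∈ N) (hGa : ‖G a‖ ≤ s) :
    Vc G s a ⊆ N ∧ ∀ e : ℂ, ‖e‖ ≤ s → ∃ z ∈ Vc G s a, G z = e := by
  have h := conf hc ho (E := closedBall 0 s) (convex_closedBall _ _).isPreconnected
    isClosed_closedBall hN hb (fun z hz h => by
      rw [mem_closedBall_zero_iff] at h
      exact absurd h (not_le.2 (hfr z hz))) ha (by rwa [mem_closedBall_zero_iff])
  rw [preimage_closedBall] at h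
  exact ⟨h.1, fun e he => h.2 e (by rwa [mem_closedBall_zero_iff])⟩

theorem radial {z x : ℂ} {l : ℝ} (hl : 1 ≤ l) (hx : ‖x‖ ≤ ‖z‖) :
    ‖z - x‖ ≤ ‖(l : ℂ) * z - x‖ := by
  have h1 : ‖z - x‖ ^ 2 ≤ ‖(l : ℂ) * z - x‖ ^ 2 := by
    have e1 : (l : ℂ) * z = l • z := by rw [Complex.real_smul]
    rw [e1, norm_sub_sq_real, norm_sub_sq_real, inner_smul_left, norm_smul, Real.norm_eq_abs,
      abs_of_nonneg (by linarith)]
    have h2 := real_inner_le_norm z x
    have h3 : (0 : ℝ) ≤ ‖z‖ := norm_nonneg _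
    have h4 : (0 : ℝ) ≤ ‖x‖ := norm_nonneg _
    have h5 : (inner ℝ z x : ℝ) ≤ ‖z‖ ^ 2 := by nlinarith
    simp only [conj_trivial]
    nlinarith [mul_nonneg (sub_nonneg.2 hl) (sub_nonneg.2 h5), sq_nonneg ((l - 1) * ‖z‖)]
  exact le_of_sq_le_sq h1 (norm_nonneg _)

theorem exists_lem {k : ℕ} (hk : 0 < k) {ρ s : ℝ} (hρ : 0 < ρ) (hρs : ρ < s) :
    ∃ (L : ℂ[X]) (e : Bool → ℂ), 0 < L.natDegree ∧
      (∀ z : ℂ, ‖z‖ ≤ ρ → ‖L.eval z‖ < 1 / 4) ∧
      (∀ z : ℂ, s ≤ ‖z‖ → 4 < ‖L.eval z‖ ∧ 4 * ((‖z‖ - s) / (2 * s)) ≤ ‖L.eval z‖) ∧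
      (∀ c : ℝ, 1 / 4 ≤ c → c ≤ 4 → ∀ z : ℂ, ‖L.eval z‖ ≤ c →
        ∃ b, z ∈ Vc (fun z => L.eval z) c (e b)) ∧
      Disjoint (Vc (fun z => L.eval z) 4 (e false)) (Vc (fun z => L.eval z) 4 (e true)) ∧
      (∀ b, ∃ g : ℝ → ℝ, ContinuousOn g (Icc 0 1) ∧ (∀ t ∈ Icc (0 : ℝ) 1, g t ∈ Icc ρ s) ∧
        e b = (g 0 : ℂ) ∧ ∀ t ∈ Icc (0 : ℝ) 1,
          (g t : ℂ) * Complex.exp ((0 + 2 * Real.pi * k * t : ℝ) * Complex.I) ∈
            Vc (fun z => L.eval z) 1 (e b)) ∧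
      (0 : ℂ) ∈ Vc (fun z => L.eval z) 1 (e false) ∧ (∀ b, ‖L.eval (e b)‖ < 1 / 4) := by
  set ρ₁ : ℝ := (ρ + s) / 2 with hρ₁
  set η : ℝ := (s - ρ₁) / 2 with hη
  have h1 : 0 < ρ₁ := by rw [hρ₁]; linarith
  have h2 : ρ < ρ₁ := by rw [hρ₁]; linarith
  have h3 : ρ₁ < s := by rw [hρ₁]; linarith
  have hη0 : 0 < η := by rw [hη]; linarith
  have hs : 0 < s := by linarith
  have hηs : ρ₁ + η * (3 / 2) < s := by rw [hη]; linarith
  set K := K0 ρ₁ η k ∪ K1 ρ₁ η k with hK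
  have hKc : IsCompact K := (isCompact_K0 _ _ _).union (isCompact_K1 _ _ _)
  have hKs : ∀ z ∈ K, ‖z‖ < s := by
    rintro z (h | h)
    · have := norm_K0 h1 hη0 h
      have : η ≤ η * (3 / 2) := by linarith
      linarith
    · have := (norm_K1 h1 hη0 hk h).2
      linarith
  have hKinf : K.Infinite := by
    have h4 : (closedBall (0 : ℂ) ρ₁).Infinite := by
      apply Set.infinite_of_injective_forall_mem (f := fun n : ℕ => ((ρ₁ / (n + 1) : ℝ) : ℂ))
      · intro a b hab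
        have h5 : ρ₁ / (a + 1) = ρ₁ / (b + 1) := Complex.ofReal_injective hab
        have h6 : (a : ℝ) + 1 = b + 1 := by
          field_simp at h5
          linarith
        exact_mod_cast (add_right_cancel h6)
      · intro n
        rw [mem_closedBall_zero_iff, Complex.norm_real, Real.norm_eq_abs,
          abs_of_nonneg (by positivity)]
        exact div_le_self h1.le (by linarith [(Nat.cast_nonneg n : (0 : ℝ) ≤ n)])
    exact h4.mono (fun z hz => Or.inl (Or.inl hz))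
  have hKcc : IsConnected Kᶜ := by
    refine ⟨⟨(s : ℂ), fun h => ?_⟩, compl_K h1 hη0 hk⟩
    have := hKs _ h
    rw [Complex.norm_real, Real.norm_eq_abs, abs_of_pos hs] at this
    exact lt_irrefl _ this
  obtain ⟨δ, hδ, hdisj⟩ := (disj_K h1 hη0 hk).exists_thickenings (isCompact_K0 _ _ _)
    (isCompact_K1 _ _ _).isClosed
  set O0 := thickening δ (K0 ρ₁ η k) ∩ ball 0 s with hO0
  set O1 := thickening δ (K1 ρ₁ η k) ∩ ball 0 s with hO1
  have hO0o : IsOpen O0 := isOpen_thickening.inter isOpen_ball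
  have hO1o : IsOpen O1 := isOpen_thickening.inter isOpen_ball
  have hO : Disjoint O0 O1 := hdisj.mono inter_subset_left inter_subset_left
  have hK0O : K0 ρ₁ η k ⊆ O0 := fun z hz =>
    ⟨self_subset_thickening hδ _ hz, by rw [mem_ball_zero_iff]; exact hKs z (Or.inl hz)⟩
  have hK1O : K1 ρ₁ η k ⊆ O1 := fun z hz =>
    ⟨self_subset_thickening hδ _ hz, by rw [mem_ball_zero_iff]; exact hKs z (Or.inr hz)⟩
  set W := closedBall (0 : ℂ) s \ (O0 ∪ O1) with hW
  have hWc : IsCompact W := (isCompact_closedBall _ _).diff (hO0o.union hO1o)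
  have hKW : Disjoint K W := by
    rw [Set.disjoint_left]
    rintro z (h | h) ⟨-, h'⟩
    · exact h' (Or.inl (hK0O h))
    · exact h' (Or.inr (hK1O h))
  obtain ⟨n, x, c, hn, hc, hxK, hsmall, hlarge⟩ := exists_sepPoly hKc hKinf hKcc hWc hKW
  set L : ℂ[X] := C c * ∏ i, (X - C (x i)) with hL
  have hLe : ∀ z, L.eval z = c * ∏ i, (z - x i) := by
    intro z
    rw [hL, eval_mul, eval_C, eval_prod]
    simp
  have hLdeg : 0 < L.natDegree := by
    rw [hL, natDegree_C_mul hc, natDegree_prod_of_monic _ _ (fun i _ => monic_X_sub_C _)]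
    simp [hn]
  have hsmall' : ∀ z ∈ K, ‖L.eval z‖ < 1 / 4 := fun z hz => by rw [hLe]; exact hsmall z hz
  have hlarge' : ∀ z ∈ W, 4 < ‖L.eval z‖ := fun z hz => by rw [hLe]; exact hlarge z hz
  have hnorm : ∀ z, ‖L.eval z‖ = ‖c‖ * ∏ i, ‖z - x i‖ := fun z => by
    rw [hLe, norm_mul, norm_prod]
  have hxs : ∀ i, ‖x i‖ < s := fun i => hKs _ (hxK i)
  have hfar : ∀ z : ℂ, s ≤ ‖z‖ → 4 < ‖L.eval z‖ ∧ 4 * ((‖z‖ - s) / (2 * s)) ≤ ‖L.eval z‖ := by
    intro z hz
    have hz0 : 0 < ‖z‖ := by linarith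
    set l : ℝ := ‖z‖ / s with hl
    have hl1 : 1 ≤ l := by rw [hl, le_div_iff₀ hs]; linarith
    have hl0 : 0 < l := by linarith
    set z' : ℂ := z / l with hz'
    have hlne : (l : ℂ) ≠ 0 := by exact_mod_cast hl0.ne'
    have hzz : z = (l : ℂ) * z' := by rw [hz']; field_simp
    have hz's : ‖z'‖ = s := by
      rw [hz', norm_div, Complex.norm_real, Real.norm_eq_abs, abs_of_pos hl0, hl]
      field_simp
    have hz'W : z' ∈ W := by
      refine ⟨by rw [mem_closedBall_zero_iff, hz's], ?_⟩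
      rintro (h | h)
      · have := h.2
        rw [mem_ball_zero_iff, hz's] at this
        exact lt_irrefl _ this
      · have := h.2
        rw [mem_ball_zero_iff, hz's] at this
        exact lt_irrefl _ this
    have h4 := hlarge' z' hz'W
    have hmono : ∀ i, ‖z' - x i‖ ≤ ‖z - x i‖ := by
      intro i
      rw [hzz]
      exact radial hl1 (by rw [hz's]; exact (hxs i).le)
    constructor
    · refine h4.trans_le ?_
      rw [hnorm, hnorm]
      gcongr with i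
      exact hmono i
    · have hnn : 0 ≤ (‖z‖ - s) / (2 * s) := div_nonneg (by linarith) (by linarith)
      calc 4 * ((‖z‖ - s) / (2 * s)) ≤ ‖L.eval z'‖ * ((‖z‖ - s) / (2 * s)) := by gcongr
        _ ≤ ‖L.eval z‖ := by
          rw [hnorm, hnorm, ← Finset.mul_prod_erase _ _ (Finset.mem_univ (⟨0, hn⟩ : Fin n)),
            ← Finset.mul_prod_erase _ (fun i => ‖z - x i‖) (Finset.mem_univ (⟨0, hn⟩ : Fin n))]
          set i₀ : Fin n := ⟨0, hn⟩
          have h5 : ‖z' - x i₀‖ * ((‖z‖ - s) / (2 * s)) ≤ ‖z - x i₀‖ := by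
            have h6 : ‖z' - x i₀‖ ≤ 2 * s := by
              calc ‖z' - x i₀‖ ≤ ‖z'‖ + ‖x i₀‖ := norm_sub_le _ _
                _ ≤ 2 * s := by rw [hz's]; linarith [hxs i₀]
            have h7 : ‖z‖ - s ≤ ‖z - x i₀‖ := by
              have := norm_sub_norm_le z (x i₀)
              linarith [hxs i₀]
            calc ‖z' - x i₀‖ * ((‖z‖ - s) / (2 * s)) ≤ (2 * s) * ((‖z‖ - s) / (2 * s)) := by
                  gcongr
              _ = ‖z‖ - s := by field_simp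
              _ ≤ _ := h7
          have h8 : ∏ i ∈ Finset.univ.erase i₀, ‖z' - x i‖ ≤ ∏ i ∈ Finset.univ.erase i₀, ‖z - x i‖ :=
            Finset.prod_le_prod (fun _ _ => norm_nonneg _) fun i _ => hmono i
          have h9 : 0 ≤ ∏ i ∈ Finset.univ.erase i₀, ‖z' - x i‖ :=
            Finset.prod_nonneg fun _ _ => norm_nonneg _
          calc ‖c‖ * (‖z' - x i₀‖ * ∏ i ∈ Finset.univ.erase i₀, ‖z' - x i‖) *
              ((‖z‖ - s) / (2 * s)) = ‖c‖ * ((‖z' - x i₀‖ * ((‖z‖ - s) / (2 * s))) *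
                ∏ i ∈ Finset.univ.erase i₀, ‖z' - x i‖) := by ring
            _ ≤ ‖c‖ * (‖z - x i₀‖ * ∏ i ∈ Finset.univ.erase i₀, ‖z - x i‖) := by
              gcongr
  have hin : ∀ c : ℝ, c ≤ 4 → ∀ z : ℂ, ‖L.eval z‖ ≤ c → z ∈ O0 ∨ z ∈ O1 := by
    intro c hc z hz
    have hzs : ‖z‖ < s := by
      by_contra h
      push Not at h
      have := (hfar z h).1
      linarith
    by_contra h
    have : z ∈ W := ⟨by rw [mem_closedBall_zero_iff]; exact hzs.le, h⟩
    have := hlarge' z this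
    linarith
  set e : Bool → ℂ := fun b => if b then spir ρ₁ η k (1 / (2 * k)) 0 else spir ρ₁ η k 0 0 with he
  have hef : e false = spir ρ₁ η k 0 0 := by simp [he]
  have het : e true = spir ρ₁ η k (1 / (2 * k)) 0 := by simp [he]
  have h01 : (0 : ℝ) ∈ Icc (0 : ℝ) 1 := ⟨le_rfl, zero_le_one⟩
  have hef' : e false ∈ K0 ρ₁ η k := by rw [hef]; exact Or.inr ⟨0, h01, rfl⟩
  have het' : e true ∈ K1 ρ₁ η k := by rw [het]; exact ⟨0, h01, rfl⟩
  have hsub0 : ∀ c : ℝ, 1 / 4 ≤ c → K0 ρ₁ η k ⊆ Vc (fun z => L.eval z) c (e false) := by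
    intro c hc
    exact sub_Vc (isPreconnected_K0 h1 k) hef' fun z hz => (hsmall' z (Or.inl hz)).le.trans hc
  have hsub1 : ∀ c : ℝ, 1 / 4 ≤ c → K1 ρ₁ η k ⊆ Vc (fun z => L.eval z) c (e true) := by
    intro c hc
    exact sub_Vc (isPreconnected_K1 _ _ _) het' fun z hz => (hsmall' z (Or.inr hz)).le.trans hc
  refine ⟨L, e, hLdeg, ?_, hfar, ?_, ?_, ?_, ?_, ?_⟩
  · intro z hz
    apply hsmall' z
    left; left
    rw [mem_closedBall_zero_iff]
    linarith
  · intro c hc1 hc2 z hz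
    have hzs : ‖z‖ < s := by
      by_contra h
      push Not at h
      have := (hfar z h).1
      linarith
    obtain ⟨-, honto⟩ := Vc_onto (G := fun z => L.eval z) L.continuous (open_poly hLdeg)
      (isOpen_ball (x := (0 : ℂ)) (ε := s)) isBounded_ball (s := c) (a := z) (by
        intro w hw
        have h5 : w ∈ sphere (0 : ℂ) s := frontier_ball_subset_sphere hw
        rw [mem_sphere_zero_iff_norm] at h5
        have := (hfar w h5.ge).1
        linarith) (by rwa [mem_ball_zero_iff]) hz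
    obtain ⟨w, hw, hw0⟩ := honto 0 (by rw [norm_zero]; linarith)
    rw [hLe, mul_eq_zero, Finset.prod_eq_zero_iff] at hw0
    obtain ⟨i, -, hi⟩ := hw0.resolve_left hc
    rw [sub_eq_zero] at hi
    have hwK : w ∈ K := hi ▸ hxK i
    have hzw : z ∈ Vc (fun z => L.eval z) c w := by
      rw [← Vc_eq hw]; exact mem_Vc hz
    rcases hwK with h | h
    · refine ⟨false, ?_⟩
      rw [Vc_eq (hsub0 c hc1 h)]
      exact hzw
    · refine ⟨true, ?_⟩
      rw [Vc_eq (hsub1 c hc1 h)]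
      exact hzw
  · have hcov : ∀ a : ℂ, Vc (fun z => L.eval z) 4 a ⊆ O0 ∪ O1 := fun a z hz =>
      hin 4 le_rfl z (Vc_sub hz)
    have hA : Vc (fun z => L.eval z) 4 (e false) ⊆ O0 :=
      (Vc_pre _ _ _).subset_left_of_subset_union hO0o hO1o hO (hcov _)
        ⟨e false, hsub0 4 (by norm_num) hef', hK0O hef'⟩
    have hB : Vc (fun z => L.eval z) 4 (e true) ⊆ O1 :=
      (Vc_pre _ _ _).subset_right_of_subset_union hO0o hO1o hO (hcov _)
        ⟨e true, hsub1 4 (by norm_num) het', hK1O het'⟩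
    exact hO.mono hA hB
  · have key : ∀ b' : ℝ, 0 ≤ b' → b' ≤ 1 / 2 →
        ∃ g : ℝ → ℝ, ContinuousOn g (Icc 0 1) ∧ (∀ t ∈ Icc (0 : ℝ) 1, g t ∈ Icc ρ s) ∧
        spir ρ₁ η k b' 0 = (g 0 : ℂ) ∧ ∀ t ∈ Icc (0 : ℝ) 1,
          (g t : ℂ) * Complex.exp ((0 + 2 * Real.pi * k * t : ℝ) * Complex.I) =
            spir ρ₁ η k b' t := by
      intro b' hb0 hb1
      refine ⟨fun t => ρ₁ + η * (t + b'), by fun_prop, ?_, ?_, ?_⟩
      · intro t ht
        have h5 : 0 ≤ η * (t + b') := mul_nonneg hη0.le (by linarith [ht.1])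
        have h6 : η * (t + b') ≤ η * (3 / 2) := mul_le_mul_of_nonneg_left (by linarith [ht.2]) hη0.le
        constructor
        · linarith
        · linarith
      · simp [spir]
      · intro t ht
        rw [zero_add, spir]
    intro b
    cases b
    · obtain ⟨g, hg1, hg2, hg3, hg4⟩ := key 0 le_rfl (by norm_num)
      refine ⟨g, hg1, hg2, by rw [hef]; exact hg3, fun t ht => ?_⟩
      rw [hg4 t ht]
      exact hsub0 1 (by norm_num) (Or.inr ⟨t, ht, rfl⟩)
    · obtain ⟨g, hg1, hg2, hg3, hg4⟩ := key (1 / (2 * k)) (half_k hk).1.le (half_k hk).2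
      refine ⟨g, hg1, hg2, by rw [het]; exact hg3, fun t ht => ?_⟩
      rw [hg4 t ht]
      exact hsub1 1 (by norm_num) ⟨t, ht, rfl⟩
  · exact hsub0 1 (by norm_num) (Or.inl (by rw [mem_closedBall_zero_iff, norm_zero]; exact h1.le))
  · intro b
    cases b
    · exact hsmall' _ (Or.inl hef')
    · exact hsmall' _ (Or.inr het')

end Pool.Agent.TH224.SC
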