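import Pool.Agent.TH224.SC.Star
import Pool.Agent.TH224.SC.Lem

/-!
Comparison of a component of `{|f^m| ≤ s}` with the component of `{|f^(m+1)| ≤ s'}` inside it.
-/

set_option autoImplicit false

open Filter Topology Metric Set Polynomial

namespace Pool.Agent.TH224.SC

theorem comp_closed {F : Set ℂ} (hF : IsClosed F) (x : ℂ) : IsClosed (connectedComponentIn F x) := by
  by_cases hx : x ∈ F
  · apply isClosed_of_closure_subset
    apply (isPreconnected_connectedComponentIn.closure).subset_connectedComponentIn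
      (subset_closure (mem_connectedComponentIn hx))
    exact hF.closure_subset_iff.2 (connectedComponentIn_subset _ _)
  · rw [connectedComponentIn_eq_empty hx]; exact isClosed_empty

/-- upper semicontinuity of the components of sublevel sets -/
theorem usc {p : ℂ[X]} (hp : 0 < p.natDegree) (s : ℝ) {ε : ℝ} (hε : 0 < ε) :
    ∀ᶠ δ in 𝓝[>] (0 : ℝ), ∀ a : ℂ, ‖p.eval a‖ ≤ s → ∀ y ∈ Vc (fun z => p.eval z) (s + δ) a,
      ∃ y' ∈ Vc (fun z => p.eval z) s a, ‖y - y'‖ < ε := by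
  classical
  by_cases hs : 0 ≤ s
  swap
  · filter_upwards with δ a ha
    exact absurd ((norm_nonneg _).trans ha) hs
  have hpne : p ≠ 0 := by
    rintro rfl
    simp at hp
  obtain ⟨T, hT, hlarge⟩ := exists_large hp s
  have hfrT : ∀ z ∈ frontier (ball (0 : ℂ) T), s < ‖p.eval z‖ := by
    intro z hz
    have h5 : z ∈ sphere (0 : ℂ) T := frontier_ball_subset_sphere hz
    rw [mem_sphere_zero_iff_norm] at h5
    exact hlarge z h5.ge
  have hinT : ∀ z : ℂ, ‖p.eval z‖ ≤ s → z ∈ ball (0 : ℂ) T := by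
    intro z hz
    rw [mem_ball_zero_iff]
    by_contra h
    push Not at h
    linarith [hlarge z h]
  have hroot : ∀ e ∈ p.roots.toFinset, ∀ᶠ δ in 𝓝[>] (0 : ℝ),
      Vc (fun z => p.eval z) (s + δ) e ⊆ thickening ε (Vc (fun z => p.eval z) s e) := by
    intro e he
    have he0 : p.eval e = 0 := by
      rw [Multiset.mem_toFinset, mem_roots hpne] at he
      exact he
    have heS : ‖p.eval e‖ ≤ s := by rw [he0, norm_zero]; exact hs
    have hSc : IsClosed {z : ℂ | ‖p.eval z‖ ≤ s} := isClosed_le p.continuous.norm continuous_const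
    obtain ⟨W, hW, hWN, heW, hWc, hWO⟩ := exists_clopen hSc
      (isOpen_ball (x := (0 : ℂ)) (ε := T)) isBounded_ball
      (fun z hz h => absurd (hfrT z hz) (not_lt.2 h)) heS (hinT e heS)
      (O := thickening ε (Vc (fun z => p.eval z) s e)) isOpen_thickening
      (self_subset_thickening hε _)
    obtain ⟨N, hNo, hN1, hN2⟩ := normal_exists_closure_subset hWc.isClosed
      (hW.inter (isOpen_thickening (E := Vc (fun z => p.eval z) s e) (δ := ε)))
      (subset_inter inter_subset_right hWO)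
    have hfrN : ∀ z ∈ frontier N, s < ‖p.eval z‖ := by
      intro z hz
      by_contra h
      push Not at h
      rw [hNo.frontier_eq] at hz
      exact hz.2 (hN1 ⟨h, (hN2 hz.1).1⟩)
    have hfc : IsCompact (frontier N) := by
      apply IsCompact.of_isClosed_subset (isCompact_closedBall (0 : ℂ) T) isClosed_frontier
      intro z hz
      exact ball_subset_closedBall (hWN (hN2 (frontier_subset_closure hz)).1)
    have hδ : ∀ᶠ δ in 𝓝[>] (0 : ℝ), ∀ z ∈ frontier N, s + δ < ‖p.eval z‖ := by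
      rcases (frontier N).eq_empty_or_nonempty with h | h
      · rw [h]; filter_upwards with δ z hz using absurd hz (notMem_empty z)
      · obtain ⟨z₀, hz₀, hmin⟩ := hfc.exists_isMinOn h
          (f := fun z => ‖p.eval z‖) p.continuous.norm.continuousOn
        have hz₀' := hfrN z₀ hz₀
        have h6 : ∀ᶠ δ in 𝓝[>] (0 : ℝ), δ < ‖p.eval z₀‖ - s :=
          nhdsWithin_le_nhds (gt_mem_nhds (by linarith))
        filter_upwards [h6] with δ h7 z hz
        have h8 : ‖p.eval z₀‖ ≤ ‖p.eval z‖ := hmin hz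
        linarith
    filter_upwards [hδ, self_mem_nhdsWithin] with δ h7 h8
    have h8' : 0 < δ := h8
    have h9 : Vc (fun z => p.eval z) (s + δ) e ⊆ N := by
      apply subset_of_frontier (Vc_pre _ _ _) hNo (mem_Vc (by linarith)) (hN1 ⟨heS, heW⟩)
      intro z hz hzV
      have := Vc_sub hzV
      have := h7 z hz
      linarith
    exact h9.trans (subset_closure.trans (hN2.trans inter_subset_right))
  rw [← eventually_all_finset] at hroot
  filter_upwards [hroot, self_mem_nhdsWithin] with δ hδ hδ0 a ha y hy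
  have hδ0' : 0 < δ := hδ0
  obtain ⟨-, honto⟩ := Vc_onto (G := fun z => p.eval z) p.continuous (open_poly hp)
    (isOpen_ball (x := (0 : ℂ)) (ε := T)) isBounded_ball (s := s) (a := a) hfrT (hinT a ha) ha
  obtain ⟨e, he, he0⟩ := honto 0 (by rw [norm_zero]; exact hs)
  have heR : e ∈ p.roots.toFinset := by
    rw [Multiset.mem_toFinset, mem_roots hpne]; exact he0
  have h1 : e ∈ Vc (fun z => p.eval z) (s + δ) a := by
    apply sub_Vc (Vc_pre _ s a) (mem_Vc ha) _ he
    intro z hz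
    exact (Vc_sub hz).trans (by linarith)
  rw [Vc_eq h1] at hy
  obtain ⟨y', hy', hd⟩ := mem_thickening_iff.1 (hδ e heR hy)
  rw [Vc_eq he]
  exact ⟨y', hy', by rwa [← dist_eq_norm]⟩

/-- a farthest point is on the rim -/
theorem far_pt {p : ℂ[X]} (hp : 0 < p.natDegree) {s : ℝ} (x : ℂ) {a : ℂ} (ha : ‖p.eval a‖ ≤ s) :
    ∃ y ∈ Vc (fun z => p.eval z) s a, ‖p.eval y‖ = s ∧
      ∀ y' ∈ Vc (fun z => p.eval z) s a, ‖y' - x‖ ≤ ‖y - x‖ := by
  obtain ⟨T, hT, hlarge⟩ := exists_large hp s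
  set V := Vc (fun z => p.eval z) s a with hV
  have hVc : IsCompact V := by
    apply IsCompact.of_isClosed_subset (isCompact_closedBall (0 : ℂ) T)
      (Vc_closed p.continuous s a)
    intro z hz
    rw [mem_closedBall_zero_iff]
    by_contra h
    push Not at h
    linarith [hlarge z h.le, Vc_sub hz]
  obtain ⟨y, hy, hmax⟩ := hVc.exists_isMaxOn ⟨a, mem_Vc ha⟩ (f := fun z => ‖z - x‖)
    (by fun_prop)
  refine ⟨y, hy, ?_, fun y' hy' => hmax hy'⟩
  by_contra hne
  have hlt : ‖p.eval y‖ < s := lt_of_le_of_ne (Vc_sub hy) hne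
  have hnh := Vc_nhds p.continuous hy hlt
  obtain ⟨t, ht, htV⟩ := Metric.mem_nhds_iff.1 hnh
  obtain ⟨u, hu1, hu2⟩ : ∃ u : ℂ, ‖u‖ = 1 ∧ y - x = (‖y - x‖ : ℂ) * u := by
    by_cases h : y - x = 0
    · exact ⟨1, norm_one, by rw [h]; simp⟩
    · have h' : ‖y - x‖ ≠ 0 := norm_ne_zero_iff.2 h
      have h'' : (‖y - x‖ : ℂ) ≠ 0 := by exact_mod_cast h'
      refine ⟨(y - x) / ‖y - x‖, ?_, by field_simp⟩
      rw [norm_div, Complex.norm_real, norm_norm, div_self h']
  have h1 : y + ((t / 2 : ℝ) : ℂ) * u ∈ V := by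
    rw [hV]
    apply htV
    rw [mem_ball, dist_eq_norm, add_sub_cancel_left, norm_mul, hu1, mul_one, Complex.norm_real,
      Real.norm_eq_abs, abs_of_pos (by positivity)]
    linarith
  have h2 : ‖y + ((t / 2 : ℝ) : ℂ) * u - x‖ ≤ ‖y - x‖ := hmax h1
  have h3 : y + ((t / 2 : ℝ) : ℂ) * u - x = ((‖y - x‖ + t / 2 : ℝ) : ℂ) * u := by
    have : y + ((t / 2 : ℝ) : ℂ) * u - x = (y - x) + ((t / 2 : ℝ) : ℂ) * u := by ring
    rw [this]
    nth_rw 1 [hu2]
    push_cast
    ring
  rw [h3, norm_mul, hu1, mul_one, Complex.norm_real, Real.norm_eq_abs,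
    abs_of_nonneg (by positivity)] at h2
  linarith

/-- zeros are far from the rim -/
theorem gap {p : ℂ[X]} (hp : 0 < p.natDegree) {s : ℝ} (hs : 0 < s) :
    ∃ d : ℝ, 0 < d ∧ ∀ z₁ z₂ : ℂ, p.eval z₁ = 0 → ‖p.eval z₂‖ = s → 2 * d ≤ ‖z₁ - z₂‖ := by
  obtain ⟨T, hT, hlarge⟩ := exists_large hp s
  have hin : ∀ z : ℂ, ‖p.eval z‖ ≤ s → z ∈ closedBall (0 : ℂ) T := by
    intro z hz
    rw [mem_closedBall_zero_iff]
    by_contra h
    push Not at h
    linarith [hlarge z h.le]
  have huc : UniformContinuousOn (fun z => p.eval z) (closedBall (0 : ℂ) T) :=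
    (isCompact_closedBall _ _).uniformContinuousOn_of_continuous p.continuous.continuousOn
  rw [Metric.uniformContinuousOn_iff] at huc
  obtain ⟨δ, hδ, h⟩ := huc s hs
  refine ⟨δ / 2, by positivity, fun z₁ z₂ h1 h2 => ?_⟩
  by_contra hcon
  push Not at hcon
  have := h z₁ (hin z₁ (by rw [h1, norm_zero]; exact hs.le)) z₂ (hin z₂ h2.le)
    (by rw [dist_eq_norm]; linarith)
  rw [h1, dist_eq_norm, zero_sub, norm_neg, h2] at this
  exact lt_irrefl _ this

/-- iterates of nearby maps are close -/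
theorem iter_close {F : ℂ → ℂ} (hF : Continuous F) {r : ℝ} (hr : 0 < r) (m : ℕ) :
    ∀ δ : ℝ, 0 < δ → ∃ τ : ℝ, 0 < τ ∧ ∀ f : ℂ → ℂ, (∀ w, ‖w‖ ≤ r → ‖f w - F w‖ ≤ τ) →
      ∀ z, (∀ i < m, ‖f^[i] z‖ < r / 2) → ‖f^[m] z - F^[m] z‖ ≤ δ := by
  induction m with
  | zero =>
    intro δ hδ
    exact ⟨1, one_pos, fun f _ z _ => by simpa using hδ.le⟩
  | succ m ih =>
    intro δ hδ
    have huc : UniformContinuousOn F (closedBall (0 : ℂ) r) :=
      (isCompact_closedBall _ _).uniformContinuousOn_of_continuous hF.continuousOn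
    rw [Metric.uniformContinuousOn_iff] at huc
    obtain ⟨η, hη, h⟩ := huc (δ / 2) (by positivity)
    have hη' : 0 < min (η / 2) (r / 2) := lt_min (by linarith) (by linarith)
    obtain ⟨τ, hτ, h'⟩ := ih (min (η / 2) (r / 2)) hη'
    refine ⟨min τ (δ / 2), lt_min hτ (by linarith), fun f hf z hz => ?_⟩
    have h1 := h' f (fun w hw => (hf w hw).trans (min_le_left _ _)) z
      (fun i hi => hz i (by omega))
    have h2 := hz m (by omega)
    rw [Function.iterate_succ_apply', Function.iterate_succ_apply']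
    have h3 : ‖F^[m] z‖ ≤ r := by
      have := norm_sub_norm_le (F^[m] z) (f^[m] z)
      rw [norm_sub_rev] at this
      have := min_le_right (η / 2) (r / 2)
      linarith
    have h4 := h (f^[m] z) (by rw [mem_closedBall_zero_iff]; linarith) (F^[m] z)
      (by rwa [mem_closedBall_zero_iff]) (by
        rw [dist_eq_norm]
        have := min_le_left (η / 2) (r / 2)
        linarith)
    rw [dist_eq_norm] at h4
    have h5 := (hf (f^[m] z) (by linarith)).trans (min_le_right _ _)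
    calc ‖f (f^[m] z) - F (F^[m] z)‖ ≤ ‖f (f^[m] z) - F (f^[m] z)‖ +
          ‖F (f^[m] z) - F (F^[m] z)‖ := norm_sub_le_norm_sub_add_norm_sub _ _ _
      _ ≤ δ := by linarith

/-- **comparison of consecutive components** -/
theorem core (m : ℕ) {G : ℂ[X]} (hG : 0 < G.natDegree) {s : ℝ} (hs : 20 ≤ s)
    (hreg : ∀ z, ‖G.eval z‖ = s → G.derivative.eval z ≠ 0) {r : ℝ} (hr : r < s) :
    ∃ ρ : ℝ, r < ρ ∧ ρ < s ∧ 0 < ρ ∧ ∀ (L : ℂ[X]) (e : Bool → ℂ),
      (∀ z : ℂ, s ≤ ‖z‖ → 4 < ‖L.eval z‖) →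
      (∀ b, ∃ g : ℝ → ℝ, ContinuousOn g (Icc 0 1) ∧ (∀ t ∈ Icc (0 : ℝ) 1, g t ∈ Icc ρ s) ∧
        e b = (g 0 : ℂ) ∧ ∀ t ∈ Icc (0 : ℝ) 1,
          (g t : ℂ) * Complex.exp ((0 + 2 * Real.pi * G.natDegree * t : ℝ) * Complex.I) ∈
            Vc (fun z => L.eval z) 1 (e b)) →
      (∀ b, ‖L.eval (e b)‖ ≤ 1) →
      ∀ᶠ δ in 𝓝[>] (0 : ℝ), ∀ (f H : ℂ → ℂ), Continuous f → Continuous H → IsOpenMap H →
        ∀ (s' : ℝ), (∀ z : ℂ, ‖L.eval z‖ ≤ 2 → ‖f z‖ ≤ s') →
        (∀ z : ℂ, ‖z‖ ≤ s → ‖f z‖ ≤ s' →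
          ∃ b, e b ∈ connectedComponentIn {w : ℂ | ‖w‖ ≤ s ∧ ‖f w‖ ≤ s'} z) →
        ∀ (N : Set ℂ) (x : ℂ), IsOpen N → Bornology.IsBounded N → x ∈ N →
        (∀ z ∈ closure N, ‖H z - G.eval z‖ ≤ δ) → (∀ z ∈ frontier N, s ^ 2 < ‖H z‖) →
        ‖H x‖ ≤ s → ‖f (H x)‖ ≤ s' →
        ∀ y ∈ Vc H s x, ∃ q ∈ Vc (fun z => f (H z)) s' x,
          (1 - 1 / 2 ^ (m + 2)) * ‖y - x‖ ≤ ‖q - x‖ := by
  have hs0 : 0 < s := by linarith
  obtain ⟨d, hd, hgap⟩ := gap hG hs0
  set ε : ℝ := d / 2 ^ (m + 3) with hε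
  have hε0 : 0 < ε := by rw [hε]; positivity
  obtain ⟨ρ, hρr, hρs, hρ0, hstar⟩ := star hG hs0 hreg hε0 hr
  refine ⟨ρ, hρr, hρs, hρ0, fun L e hL4 hg hLe => ?_⟩
  -- thickening
  have hthick : ∀ᶠ δ in 𝓝[>] (0 : ℝ), ∀ w z : ℂ, ‖L.eval w‖ ≤ 1 → ‖z - w‖ ≤ 2 * δ →
      ‖L.eval z‖ ≤ 2 := by
    have hin : ∀ w : ℂ, ‖L.eval w‖ ≤ 1 → ‖w‖ ≤ s := by
      intro w hw
      by_contra h
      push Not at h
      linarith [hL4 w h.le]
    have huc : UniformContinuousOn (fun z => L.eval z) (closedBall (0 : ℂ) (s + 1)) :=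
      (isCompact_closedBall _ _).uniformContinuousOn_of_continuous L.continuous.continuousOn
    rw [Metric.uniformContinuousOn_iff] at huc
    obtain ⟨η, hη, h⟩ := huc 1 one_pos
    have h1 : ∀ᶠ δ in 𝓝[>] (0 : ℝ), δ < η / 2 := nhdsWithin_le_nhds (gt_mem_nhds (by linarith))
    have h2 : ∀ᶠ δ in 𝓝[>] (0 : ℝ), δ < 1 / 2 := nhdsWithin_le_nhds (gt_mem_nhds (by norm_num))
    filter_upwards [h1, h2] with δ h1 h2 w z hw hz
    have h3 := hin w hw
    have h4 : ‖z‖ ≤ s + 1 := by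
      have := norm_sub_norm_le z w
      linarith
    have h5 := h z (by rwa [mem_closedBall_zero_iff]) w (by rw [mem_closedBall_zero_iff]; linarith)
      (by rw [dist_eq_norm]; linarith)
    rw [dist_eq_norm] at h5
    have := norm_sub_norm_le (L.eval z) (L.eval w)
    linarith
  have h2 : ∀ᶠ δ in 𝓝[>] (0 : ℝ), δ < 1 / 2 := nhdsWithin_le_nhds (gt_mem_nhds (by norm_num))
  filter_upwards [usc hG s hε0, hthick, h2, self_mem_nhdsWithin] with δ husc hthick hδ2 hδ0
  have hδ0 : 0 < δ := hδ0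
  intro f H hf hH hHo s' hfL hfE N x hN hNb hxN hclose hfrH hHx hfHx y hy
  -- the component `E`
  set S : Set ℂ := {w : ℂ | ‖w‖ ≤ s ∧ ‖f w‖ ≤ s'} with hS
  have hSc : IsClosed S :=
    (isClosed_le continuous_norm continuous_const).inter (isClosed_le hf.norm continuous_const)
  set E := connectedComponentIn S (H x) with hE
  have hEc : IsClosed E := comp_closed hSc _
  have hEp : IsPreconnected E := isPreconnected_connectedComponentIn
  have hHxS : H x ∈ S := ⟨hHx, hfHx⟩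
  have hHxE : H x ∈ E := mem_connectedComponentIn hHxS
  have hES : E ⊆ S := connectedComponentIn_subset _ _
  obtain ⟨b, hb⟩ := hfE (H x) hHx hfHx
  have hss : s + 1 < s ^ 2 := by nlinarith
  obtain ⟨hYN, hYonto⟩ := conf hH hHo hEp hEc hN hNb (fun z hz h => by
    have := hfrH z hz
    have := (hES h).1
    linarith) hxN hHxE
  obtain ⟨a, haY, haE⟩ := hYonto (e b) hb
  set Y := connectedComponentIn (H ⁻¹' E) x with hY
  have hYp : IsPreconnected Y := isPreconnected_connectedComponentIn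
  have hYsub : Y ⊆ H ⁻¹' E := connectedComponentIn_subset _ _
  have hxY : x ∈ Y := mem_connectedComponentIn hHxE
  have hYV : Y ⊆ Vc (fun z => f (H z)) s' x := sub_Vc hYp hxY fun z hz => (hES (hYsub hz)).2
  have hYH : Y ⊆ Vc H s x := sub_Vc hYp hxY fun z hz => (hES (hYsub hz)).1
  have haN : a ∈ N := hYN haY
  have hNcl : N ⊆ closure N := subset_closure
  have hGa : ‖G.eval a - e b‖ ≤ δ := by
    have := hclose a (hNcl haN)
    rw [haE, norm_sub_rev] at this
    exact this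
  -- the small disc around `e b`
  have hball : ∀ w : ℂ, ‖w - e b‖ ≤ δ → ‖w‖ < s := by
    intro w hw
    by_contra h
    push Not at h
    have h5 := hthick (e b) w (hLe b) (by linarith)
    linarith [hL4 w h]
  have hfrG : ∀ z ∈ frontier N, s < ‖G.eval z‖ := by
    intro z hz
    have h5 := hfrH z hz
    have h6 := hclose z (frontier_subset_closure hz)
    have h7 := norm_sub_norm_le (H z) (G.eval z)
    linarith
  obtain ⟨hX1N, hX1onto⟩ := conf (G := fun z => G.eval z) G.continuous (open_poly hG)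
    (E := closedBall (e b) δ) (convex_closedBall _ _).isPreconnected isClosed_closedBall hN hNb
    (fun z hz h => by
      rw [mem_closedBall, dist_eq_norm] at h
      have := hball _ h
      linarith [hfrG z hz]) (a := a) haN (by
      show G.eval a ∈ closedBall (e b) δ
      rw [mem_closedBall, dist_eq_norm]; exact hGa)
  obtain ⟨a', ha'X, ha'e⟩ := hX1onto (e b) (mem_closedBall_self hδ0.le)
  have ha'e : G.eval a' = e b := ha'e
  set X1 := connectedComponentIn ((fun z => G.eval z) ⁻¹' closedBall (e b) δ) a with hX1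
  have hX1p : IsPreconnected X1 := isPreconnected_connectedComponentIn
  have hX1sub : ∀ z ∈ X1, ‖G.eval z - e b‖ ≤ δ := by
    intro z hz
    have h5 : z ∈ ((fun z => G.eval z) ⁻¹' closedBall (e b) δ) :=
      connectedComponentIn_subset _ _ hz
    have h6 : G.eval z ∈ closedBall (e b) δ := h5
    rwa [mem_closedBall, dist_eq_norm] at h6
  have haX1 : a ∈ X1 := mem_connectedComponentIn (by
    show G.eval a ∈ closedBall (e b) δ
    rw [mem_closedBall, dist_eq_norm]; exact hGa)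
  have ha'N : a' ∈ N := hX1N ha'X
  -- the set `X0`
  set X0 := connectedComponentIn ((fun z => G.eval z) ⁻¹' Vc (fun z => L.eval z) 1 (e b)) a' with hX0
  have hX0p : IsPreconnected X0 := isPreconnected_connectedComponentIn
  have hX0sub : ∀ z ∈ X0, ‖L.eval (G.eval z)‖ ≤ 1 := by
    intro z hz
    have h5 : z ∈ ((fun z => G.eval z) ⁻¹' Vc (fun z => L.eval z) 1 (e b)) :=
      connectedComponentIn_subset _ _ hz
    have h6 : G.eval z ∈ Vc (fun z => L.eval z) 1 (e b) := h5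
    exact Vc_sub h6
  have ha'X0 : a' ∈ X0 := mem_connectedComponentIn (by
    show G.eval a' ∈ Vc (fun z => L.eval z) 1 (e b)
    rw [ha'e]; exact mem_Vc (hLe b))
  have hX0N : X0 ⊆ N := by
    apply subset_of_frontier hX0p hN ha'X0 ha'N
    intro z hz hzX
    have h5 := hX0sub z hzX
    have h6 := hfrG z hz
    linarith [hL4 _ h6.le]
  have hX0V : X0 ⊆ Vc (fun z => f (H z)) s' x := by
    have h5 : IsPreconnected (X1 ∪ X0) := IsPreconnected.union a' ha'X ha'X0 hX1p hX0p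
    have h6 : X1 ∪ X0 ⊆ Vc (fun z => f (H z)) s' a := by
      apply sub_Vc h5 (Or.inl haX1)
      rintro z (hz | hz)
      · apply hfL
        apply hthick (e b) (H z) (hLe b)
        have h7 := hclose z (hNcl (hX1N hz))
        have h8 := hX1sub z hz
        calc ‖H z - e b‖ ≤ ‖H z - G.eval z‖ + ‖G.eval z - e b‖ :=
              norm_sub_le_norm_sub_add_norm_sub _ _ _
          _ ≤ 2 * δ := by linarith
      · apply hfL
        apply hthick (G.eval z) (H z) (hX0sub z hz)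
        have h7 := hclose z (hNcl (hX0N hz))
        linarith
    rw [Vc_eq (hYV haY)]
    exact subset_union_right.trans h6
  -- spiral
  obtain ⟨g, hg1, hg2, hg3, hg4⟩ := hg b
  have hspi := hstar 0 g hg1 hg2 a' (by rw [ha'e, hg3]; simp)
    (Vc (fun z => L.eval z) 1 (e b)) hg4
  -- comparison of the components
  have hVN : Vc H s x ⊆ N := by
    apply subset_of_frontier (Vc_pre _ _ _) hN (mem_Vc hHx) hxN
    intro z hz hzV
    have := Vc_sub hzV
    have := hfrH z hz
    linarith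
  have hVG : Vc H s x ⊆ Vc (fun z => G.eval z) (s + δ) a := by
    apply sub_Vc (Vc_pre _ _ _) (hYH haY)
    intro z hz
    have h5 := Vc_sub hz
    have h6 := hclose z (hNcl (hVN hz))
    have h7 := norm_sub_norm_le (G.eval z) (H z)
    rw [norm_sub_rev] at h7
    linarith
  have ha'V : a ∈ Vc (fun z => G.eval z) s a' := by
    apply sub_Vc hX1p ha'X _ haX1
    intro z hz
    exact (hball _ (hX1sub z hz)).le
  have hGa' : ‖G.eval a'‖ ≤ s := by
    have := hball (G.eval a') (by rw [ha'e, sub_self, norm_zero]; exact hδ0.le)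
    exact this.le
  have haV2 : a ∈ Vc (fun z => G.eval z) (s + δ) a' := by
    apply sub_Vc (Vc_pre (fun z => G.eval z) s a') (mem_Vc hGa') _ ha'V
    intro z hz
    exact (Vc_sub hz).trans (by linarith)
  have hyV : y ∈ Vc (fun z => G.eval z) (s + δ) a' := by
    rw [Vc_eq haV2]
    exact hVG hy
  obtain ⟨y', hy'V, hyy'⟩ := husc a' hGa' y hyV
  obtain ⟨ys, hysV, hyss, hysmax⟩ := far_pt hG x hGa'
  obtain ⟨q, hqX, hqy⟩ := hspi ys hysV hyss
  refine ⟨q, hX0V hqX, ?_⟩
  -- lower bound for `‖ys - x‖`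
  obtain ⟨-, honto⟩ := Vc_onto (G := fun z => G.eval z) G.continuous (open_poly hG) hN hNb
    (s := s) (a := a') hfrG ha'N hGa'
  obtain ⟨z₁, hz₁V, hz₁⟩ := honto 0 (by rw [norm_zero]; exact hs0.le)
  have h5 := hgap z₁ ys hz₁ hyss
  have h6 := hysmax z₁ hz₁V
  have h7 : ‖z₁ - ys‖ ≤ ‖z₁ - x‖ + ‖ys - x‖ := by
    have := norm_sub_le_norm_sub_add_norm_sub z₁ x ys
    rw [norm_sub_rev x ys] at this
    exact this
  have h8 : d ≤ ‖ys - x‖ := by linarith
  have h9 := hysmax y' hy'V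
  have h10 : ‖y - x‖ ≤ ‖y - y'‖ + ‖y' - x‖ := norm_sub_le_norm_sub_add_norm_sub _ _ _
  have h11 : ‖ys - x‖ ≤ ‖q - ys‖ + ‖q - x‖ := by
    have := norm_sub_le_norm_sub_add_norm_sub ys q x
    rw [norm_sub_rev ys q] at this
    exact this
  set l : ℝ := 1 / 2 ^ (m + 2) with hl
  have hl0 : 0 < l := by rw [hl]; positivity
  have hl1 : l ≤ 1 := by
    rw [hl, div_le_one (by positivity)]
    exact one_le_pow₀ (by norm_num)
  have hεl : 2 * ε = l * d := by
    rw [hε, hl, pow_succ]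
    field_simp
  calc (1 - l) * ‖y - x‖ ≤ (1 - l) * (‖ys - x‖ + ε) := by
        apply mul_le_mul_of_nonneg_left _ (by linarith)
        linarith
    _ ≤ ‖ys - x‖ - ε := by
        have e1 : l * d ≤ l * ‖ys - x‖ := by gcongr
        have e2 : 0 ≤ l * ε := by positivity
        nlinarith
    _ ≤ ‖q - x‖ := by linarith

end Pool.Agent.TH224.SC
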