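import Pool.Agent.TH224.SC.Conf

/-!
Components of sublevel sets of polynomials: their complement and the part of modulus exactly `s`
are connected.
-/

set_option autoImplicit false

open Filter Topology Metric Set Polynomial

namespace Pool.Agent.TH224.SC

/-- the component of `{|G| ≤ s}` containing `a` -/
def Vc (G : ℂ → ℂ) (s : ℝ) (a : ℂ) : Set ℂ := connectedComponentIn {z | ‖G z‖ ≤ s} a

theorem Vc_sub {G : ℂ → ℂ} {s : ℝ} {a z : ℂ} (h : z ∈ Vc G s a) : ‖G z‖ ≤ s :=
  connectedComponentIn_subset {z | ‖G z‖ ≤ s} a h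

theorem Vc_pre (G : ℂ → ℂ) (s : ℝ) (a : ℂ) : IsPreconnected (Vc G s a) :=
  isPreconnected_connectedComponentIn

theorem mem_Vc {G : ℂ → ℂ} {s : ℝ} {a : ℂ} (h : ‖G a‖ ≤ s) : a ∈ Vc G s a :=
  mem_connectedComponentIn h

theorem sub_Vc {G : ℂ → ℂ} {s : ℝ} {a : ℂ} {X : Set ℂ} (hX : IsPreconnected X) (ha : a ∈ X)
    (h : ∀ z ∈ X, ‖G z‖ ≤ s) : X ⊆ Vc G s a :=
  hX.subset_connectedComponentIn ha h

theorem Vc_eq {G : ℂ → ℂ} {s : ℝ} {a b : ℂ} (h : b ∈ Vc G s a) : Vc G s a = Vc G s b :=
  connectedComponentIn_eq h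

theorem Vc_closed {G : ℂ → ℂ} (hG : Continuous G) (s : ℝ) (a : ℂ) : IsClosed (Vc G s a) := by
  by_cases ha : ‖G a‖ ≤ s
  · apply isClosed_of_closure_subset
    apply sub_Vc (Vc_pre G s a).closure (subset_closure (mem_Vc ha))
    have hc : IsClosed {z | ‖G z‖ ≤ s} := isClosed_le hG.norm continuous_const
    intro z hz
    exact hc.closure_subset_iff.2 (fun w hw => Vc_sub hw) hz
  · have : Vc G s a = ∅ := connectedComponentIn_eq_empty ha
    rw [this]; exact isClosed_empty

/-- interior points -/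
theorem Vc_nhds {G : ℂ → ℂ} (hG : Continuous G) {s : ℝ} {a z : ℂ} (hz : z ∈ Vc G s a)
    (h : ‖G z‖ < s) : Vc G s a ∈ 𝓝 z := by
  have h1 : {w | ‖G w‖ < s} ∈ 𝓝 z := (isOpen_lt hG.norm continuous_const).mem_nhds h
  obtain ⟨r, hr, hsub⟩ := Metric.mem_nhds_iff.1 h1
  rw [Vc_eq hz]
  exact Filter.mem_of_superset (ball_mem_nhds z hr)
    (sub_Vc (convex_ball z r).isPreconnected (mem_ball_self hr) fun w hw => (hsub hw).le)

theorem isPreconnected_ge {T : ℝ} (hT : 0 < T) : IsPreconnected {z : ℂ | T ≤ ‖z‖} := by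
  have h1 : IsPreconnected ((Ici T) ×ˢ (sphere (0 : ℂ) 1)) :=
    isPreconnected_Ici.prod (isPreconnected_sphere
      (by rw [Complex.rank_real_complex]; norm_num) 0 1)
  have h2 := h1.image (fun q : ℝ × ℂ => (q.1 : ℂ) * q.2) (by fun_prop)
  convert h2 using 1
  ext z
  simp only [Set.mem_ofPred_eq, Set.mem_image, Set.mem_prod, mem_Ici, mem_sphere_zero_iff_norm,
    Prod.exists]
  constructor
  · intro hz
    have hz0 : ‖z‖ ≠ 0 := by linarith
    refine ⟨‖z‖, z / ‖z‖, ⟨hz, ?_⟩, ?_⟩
    · rw [norm_div, Complex.norm_real, norm_norm, div_self hz0]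
    · have : ((‖z‖ : ℝ) : ℂ) ≠ 0 := by exact_mod_cast hz0
      field_simp
  · rintro ⟨t, v, ⟨ht, hv⟩, rfl⟩
    rw [norm_mul, hv, mul_one, Complex.norm_real]
    exact ht.trans (le_abs_self t)

/-- frontier points of a component of an open set are not in the set -/
theorem frontier_comp {O : Set ℂ} (hO : IsOpen O) {x z : ℂ}
    (hz : z ∈ frontier (connectedComponentIn O x)) : z ∉ O := by
  intro hzO
  have hop : IsOpen (connectedComponentIn O x) := hO.connectedComponentIn
  rw [hop.frontier_eq] at hz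
  obtain ⟨w, hw1, hw2⟩ := mem_closure_iff_nhds.1 hz.1 _
    (hO.connectedComponentIn.mem_nhds (mem_connectedComponentIn hzO))
  apply hz.2
  rw [connectedComponentIn_eq hw2, ← connectedComponentIn_eq hw1]
  exact mem_connectedComponentIn hzO

section poly

variable {p : ℂ[X]}

theorem exists_large (hp : 0 < p.natDegree) (s : ℝ) :
    ∃ T : ℝ, 0 < T ∧ ∀ z : ℂ, T ≤ ‖z‖ → s < ‖p.eval z‖ := by
  have h := p.tendsto_norm_atTop (natDegree_pos_iff_degree_pos.1 hp)
    (l := cocompact ℂ) (z := fun z => z) tendsto_norm_cocompact_atTop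
  have h2 := h.eventually (eventually_gt_atTop s)
  rw [← Metric.cobounded_eq_cocompact, ← comap_norm_atTop, eventually_comap] at h2
  obtain ⟨T, hT⟩ := eventually_atTop.1 h2
  exact ⟨max T 1, by positivity, fun z hz => hT _ ((le_max_left _ _).trans hz) z rfl⟩

theorem open_poly (hp : 0 < p.natDegree) : IsOpenMap (fun z => p.eval z) := by
  obtain ⟨x, eq⟩ | h := (AnalyticOnNhd.eval_polynomial p : AnalyticOnNhd ℂ
    (fun z => p.eval z) univ).is_constant_or_isOpenMap
  · exfalso
    obtain ⟨T, hT, h⟩ := exists_large hp ‖x‖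
    have h1 := h (T : ℂ) (by rw [Complex.norm_real, Real.norm_eq_abs, abs_of_pos hT])
    rw [eq] at h1
    exact lt_irrefl _ h1
  · exact h

/-- the complement of a component of `{|p| ≤ s}` is connected -/
theorem compl_Vc (hp : 0 < p.natDegree) (s : ℝ) (a : ℂ) :
    IsPreconnected (Vc (fun z => p.eval z) s a)ᶜ := by
  obtain ⟨T, hT, hlarge⟩ := exists_large hp s
  set V := Vc (fun z => p.eval z) s a with hV
  have hVc : IsClosed V := Vc_closed p.continuous s a
  have hout : {z : ℂ | T ≤ ‖z‖} ⊆ Vᶜ := fun z hz hzV => absurd (Vc_sub hzV) (not_le.2 (hlarge z hz))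
  apply isPreconnected_of_forall (T : ℂ)
  intro y hy
  set O := connectedComponentIn Vᶜ y with hO
  have hOo : IsOpen O := hVc.isOpen_compl.connectedComponentIn
  have hyO : y ∈ O := mem_connectedComponentIn hy
  have hOp : IsPreconnected O := isPreconnected_connectedComponentIn
  have hmeet : (O ∩ {z : ℂ | T ≤ ‖z‖}).Nonempty := by
    by_contra hcon
    rw [Set.not_nonempty_iff_eq_empty] at hcon
    have hOb : Bornology.IsBounded O := by
      apply isBounded_ball (x := (0 : ℂ)) (r := T) |>.subset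
      intro z hz
      rw [mem_ball_zero_iff]
      by_contra h
      have : z ∈ O ∩ {z : ℂ | T ≤ ‖z‖} := ⟨hz, not_lt.1 h⟩
      rw [hcon] at this
      exact this
    have hfr : ∀ z ∈ frontier O, z ∈ V := by
      intro z hz
      by_contra h
      exact frontier_comp hVc.isOpen_compl hz h
    have hmax : ∀ z ∈ closure O, ‖p.eval z‖ ≤ s := by
      intro z hz
      exact Complex.norm_le_of_forall_mem_frontier_norm_le hOb
        (p.differentiable.diffContOnCl) (fun w hw => Vc_sub (hfr w hw)) hz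
    -- the frontier is nonempty
    have hne : (frontier O).Nonempty := by
      rw [nonempty_frontier_iff]
      refine ⟨⟨y, hyO⟩, fun h => ?_⟩
      rw [h] at hOb
      exact NormedSpace.unbounded_univ ℝ ℂ hOb
    obtain ⟨w, hw⟩ := hne
    have hwV := hfr w hw
    have hsub : closure O ⊆ V := by
      have h1 : closure O ⊆ Vc (fun z => p.eval z) s w :=
        sub_Vc hOp.closure (frontier_subset_closure hw) hmax
      rw [hV, Vc_eq hwV]
      exact h1
    exact hy (hsub (subset_closure hyO))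
  obtain ⟨w, hwO, hwT⟩ := hmeet
  refine ⟨O ∪ {z : ℂ | T ≤ ‖z‖}, union_subset (connectedComponentIn_subset _ _) hout,
    Or.inr ?_, Or.inl hyO, ?_⟩
  · show T ≤ ‖(T : ℂ)‖
    rw [Complex.norm_real]; exact le_abs_self T
  · exact IsPreconnected.union w hwO hwT hOp (isPreconnected_ge hT)

/-- the part of modulus `s` of a component of `{|p| ≤ s}` is connected -/
theorem rim_Vc (hp : 0 < p.natDegree) (s : ℝ) (a : ℂ) :
    IsPreconnected (Vc (fun z => p.eval z) s a ∩ {z | ‖p.eval z‖ = s}) := by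
  classical
  set V := Vc (fun z => p.eval z) s a with hV
  have hVc : IsClosed V := Vc_closed p.continuous s a
  have hVp : IsPreconnected V := Vc_pre _ _ _
  set C : Set ℂ := V ∩ {z | ‖p.eval z‖ = s} with hC
  have hCc : IsClosed C := hVc.inter (isClosed_eq p.continuous.norm continuous_const)
  have hD : IsPreconnected (closure Vᶜ) := (compl_Vc hp s a).closure
  have hCD : C ⊆ closure Vᶜ := by
    rintro z ⟨hz1, hz2⟩
    rw [mem_closure_iff_nhds]
    intro t ht
    by_contra hcon
    rw [Set.not_nonempty_iff_eq_empty] at hcon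
    have hsub : t ⊆ V := by
      intro w hw
      by_contra h
      have : w ∈ t ∩ Vᶜ := ⟨hw, h⟩
      rw [hcon] at this
      exact this
    have h1 : (fun z => p.eval z) '' t ∈ 𝓝 (p.eval z) := (open_poly hp).image_mem_nhds ht
    have h2 : (fun z => p.eval z) '' t ⊆ closedBall 0 s := by
      rintro _ ⟨w, hw, rfl⟩
      rw [mem_closedBall_zero_iff]
      exact Vc_sub (hsub hw)
    have h3 : p.eval z ∈ interior (closedBall (0 : ℂ) s) := by
      rw [mem_interior_iff_mem_nhds]
      exact Filter.mem_of_superset h1 h2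
    by_cases hs : s = 0
    · rw [hs, closedBall_zero, interior_singleton] at h3
      exact h3
    · rw [interior_closedBall _ hs, mem_ball_zero_iff, hz2] at h3
      exact lt_irrefl _ h3
  rw [isPreconnected_closed_iff]
  intro t t' ht ht' hsub hne hne'
  by_contra hcon
  rw [Set.not_nonempty_iff_eq_empty] at hcon
  obtain ⟨c1, hc1, hc1t⟩ := hne
  obtain ⟨c2, hc2, hc2t⟩ := hne'
  have hdisj : Disjoint (C ∩ t) (C ∩ t') := by
    rw [Set.disjoint_left]
    rintro z ⟨hz, hz1⟩ ⟨_, hz2⟩
    have : z ∈ C ∩ (t ∩ t') := ⟨hz, hz1, hz2⟩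
    rw [hcon] at this
    exact this
  obtain ⟨φ, hφ0, hφ1, -⟩ := exists_continuous_zero_one_of_isClosed (hCc.inter ht) (hCc.inter ht')
    hdisj
  set h : ℂ → Circle := fun z => if z ∈ V then Circle.exp (2 * Real.pi * φ z) else 1 with hh
  have hhc : Continuous h := by
    apply Continuous.if
    · intro z hz
      have hz' : z ∈ frontier V := hz
      have hzV : z ∈ V := hVc.frontier_subset hz'
      have hzC : z ∈ C := by
        refine ⟨hzV, ?_⟩
        by_contra hne
        have hlt : ‖p.eval z‖ < s := lt_of_le_of_ne (Vc_sub hzV) hne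
        have := Vc_nhds p.continuous hzV hlt
        exact hz'.2 (mem_interior_iff_mem_nhds.2 this)
      rcases hsub hzC with h1 | h1
      · have : φ z = 0 := hφ0 ⟨hzC, h1⟩
        rw [this]; simp
      · have : φ z = 1 := hφ1 ⟨hzC, h1⟩
        rw [this, mul_one, Circle.exp_two_pi]
    · exact Circle.exp.continuous.comp (continuous_const.mul φ.continuous)
    · exact continuous_const
  obtain ⟨y0, hy0⟩ : ∃ y0 : ℝ, Circle.exp y0 = h 0 := Circle.exp_surjective _
  obtain ⟨F, ⟨-, hF⟩, -⟩ := Circle.isCoveringMap_exp.existsUnique_continuousMap_lifts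
    (⟨h, hhc⟩ : C(ℂ, Circle)) 0 y0 hy0
  have hF' : ∀ z, Circle.exp (F z) = h z := fun z => congrFun hF z
  have hφc1 : φ c1 = 0 := hφ0 ⟨hc1, hc1t⟩
  have hφc2 : φ c2 = 1 := hφ1 ⟨hc2, hc2t⟩
  have e1 : Circle.exp (F c1) = Circle.exp (2 * Real.pi * φ c1) := by
    rw [hF' c1, hh]; simp only [hc1.1, if_true]
  obtain ⟨m, hm⟩ := Circle.exp_eq_exp.1 e1
  rw [hφc1] at hm
  -- on `V`
  have hEqV := Circle.isCoveringMap_exp.eqOn_of_comp_eqOn hVp
    (g₁ := F) (g₂ := fun z => 2 * Real.pi * φ z + m * (2 * Real.pi)) F.continuous.continuousOn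
    ((continuous_const.mul φ.continuous).add continuous_const).continuousOn (by
      intro z hz
      simp only [Function.comp]
      rw [hF' z, hh]
      simp only [hz, if_true]
      exact (Circle.exp_eq_exp.2 ⟨m, rfl⟩).symm) hc1.1 (by rw [hm, hφc1])
  -- on the complement
  have hD1 : ∀ z ∈ closure Vᶜ, h z = 1 := by
    have hcl : IsClosed {z | h z = 1} := isClosed_eq hhc continuous_const
    intro z hz
    refine hcl.closure_subset_iff.2 (fun w hw => ?_) hz
    simp only [hh, Set.mem_ofPred_eq]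
    rw [if_neg hw]
  have hEqD := Circle.isCoveringMap_exp.eqOn_of_comp_eqOn hD
    (g₁ := F) (g₂ := fun _ => m * (2 * Real.pi)) F.continuous.continuousOn
    continuousOn_const (by
      intro z hz
      simp only [Function.comp]
      rw [hF' z, hD1 z hz]
      have : Circle.exp (m * (2 * Real.pi)) = Circle.exp 0 := Circle.exp_eq_exp.2 ⟨m, by ring⟩
      rw [this, Circle.exp_zero]) (hCD hc1) (by rw [hm]; ring)
  have h1 := hEqV hc2.1
  have h2 := hEqD (hCD hc2)
  simp only at h1 h2
  rw [h2, hφc2] at h1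
  have := Real.pi_pos
  linarith

end poly

end Pool.Agent.TH224.SC
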