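import Pool.Agent.TH224.SC.Dyn

/-!
No complementary component of the wandering domain is a singleton.
-/

set_option autoImplicit false

open Filter Topology Metric Set Polynomial

namespace Pool.Agent.TH224.SC

open Pool.Agent.H384R2.Fatou Pool.Agent.W723.MC

namespace Sys

variable {f : ℂ → ℂ} {r s R' : ℕ → ℝ}

theorem comp_unif (h : Sys f r s R') {K : Set ℂ} (hK : IsCompact K) (hKU : K ⊆ U f s 0) :
    ∃ m₀, ∀ m, m₀ ≤ m → ∀ z ∈ K, s m ^ 2 < ‖f^[m] z‖ ∧ ‖f^[m] z‖ ≤ R' m := by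
  set O : ℕ → Set ℂ := fun m => {z | s m ^ 2 < ‖f^[m] z‖ ∧ ‖f^[m] z‖ < r (m + 1)} with hO
  have hOo : ∀ m, IsOpen (O m) := fun m =>
    (isOpen_lt continuous_const (h.hf.continuous.iterate m).norm).inter
      (isOpen_lt (h.hf.continuous.iterate m).norm continuous_const)
  have hstep : ∀ m, ∀ z ∈ O m, s (m + 1) ^ 2 < ‖f^[m + 1] z‖ ∧ ‖f^[m + 1] z‖ ≤ R' (m + 1) := by
    rintro m z ⟨h1, h2⟩
    rw [Function.iterate_succ_apply']
    exact ⟨(h.st m).low2 _ h1.le h2.le, h.up h2.le⟩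
  have hOmono : Monotone O := by
    apply monotone_nat_of_le_succ
    intro m z hz
    obtain ⟨h1, h2⟩ := hstep m z hz
    exact ⟨h1, h2.trans_lt (h.R_lt' _)⟩
  have hcov : K ⊆ ⋃ m, O m := by
    intro q hq
    obtain ⟨k, hk1, hk2⟩ := (h.growth (hKU hq) 2).exists
    rw [zero_add] at hk1 hk2
    refine mem_iUnion.2 ⟨k, hk1, ?_⟩
    have h1 := h.hs20 k
    have h2 : 1 ≤ ‖f^[k] q‖ := by nlinarith
    nlinarith
  obtain ⟨m₀, hm₀⟩ := hK.elim_directed_cover O hOo hcov hOmono.directed_le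
  refine ⟨m₀ + 1, fun m hm z hz => ?_⟩
  obtain ⟨k, rfl⟩ := Nat.exists_eq_add_of_le hm
  have h1 : z ∈ O (m₀ + k) := hOmono (Nat.le_add_right _ _) (hm₀ hz)
  have h2 := hstep (m₀ + k) z h1
  have e : m₀ + 1 + k = m₀ + k + 1 := by omega
  rw [e]
  exact h2

theorem not_fatou_of_single {f : ℂ → ℂ} {p x : ℂ} (hx : x ∈ (FatouComponent f p)ᶜ)
    (hX : connectedComponentIn (FatouComponent f p)ᶜ x = {x}) : x ∉ FatouSet f := by
  intro hxF
  have hxV : x ∈ FatouComponent f x := mem_connectedComponentIn hxF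
  have hsub : FatouComponent f x ⊆ (FatouComponent f p)ᶜ := by
    intro z hz hzU
    apply hx
    have e1 : FatouComponent f x = FatouComponent f z := connectedComponentIn_eq hz
    have e2 : FatouComponent f p = FatouComponent f z := connectedComponentIn_eq hzU
    rw [e2, ← e1]
    exact hxV
  have h1 : FatouComponent f x ⊆ {x} := by
    rw [← hX]
    exact isPreconnected_connectedComponentIn.subset_connectedComponentIn hxV hsub
  obtain ⟨ε, hε, hb⟩ := Metric.isOpen_iff.1 (component_isOpen f x) x hxV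
  have h2 : x + ((ε / 2 : ℝ) : ℂ) ∈ ball x ε := by
    rw [mem_ball, dist_eq_norm, add_sub_cancel_left, Complex.norm_real, Real.norm_eq_abs,
      abs_of_pos (by positivity)]
    linarith
  have h3 := h1 (hb h2)
  rw [mem_singleton_iff, add_eq_left] at h3
  have h4 : ε / 2 = 0 := by exact_mod_cast h3
  linarith

theorem no_single (h : Sys f r s R') {x : ℂ} (hx : x ∈ (U f s 0)ᶜ) :
    connectedComponentIn (U f s 0)ᶜ x ≠ {x} := by
  intro hX
  have hxF : x ∉ FatouSet f := not_fatou_of_single hx hX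
  have hcl : IsClosed (U f s 0)ᶜ := (U_open f s 0).isClosed_compl
  have hfc : ∀ N : Set ℂ, ∀ δ : ℝ, closure N ⊆ ball x δ → IsCompact (frontier N) := by
    intro N δ hN
    apply IsCompact.of_isClosed_subset (isCompact_closedBall x δ) isClosed_frontier
    exact frontier_subset_closure.trans (hN.trans ball_subset_closedBall)
  obtain ⟨N, hN, hxN, hNb, hfr⟩ := exists_sep hcl hx hX one_pos
  have hfrU : frontier N ⊆ U f s 0 := fun z hz => by
    by_contra h1
    exact hfr z hz h1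
  have hNbd : Bornology.IsBounded N := isBounded_ball.subset (subset_closure.trans hNb)
  obtain ⟨M₀, hM₀⟩ := h.comp_unif (hfc N 1 hNb) hfrU
  -- bounds on `closure N`
  have hclN : ∀ m, M₀ ≤ m → ∀ z ∈ closure N, ‖f^[m] z‖ ≤ R' m := by
    intro m hm z hz
    exact Complex.norm_le_of_forall_mem_frontier_norm_le hNbd ((h.hf.iterate m).diffContOnCl)
      (fun w hw => (hM₀ m hm w hw).2) hz
  have hxs : ∀ m, M₀ ≤ m → ‖f^[m] x‖ ≤ s m := by
    intro m hm
    by_contra hcon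
    push Not at hcon
    apply hxF
    apply fatou_back_iter h.hf.continuous m
    exact h.B_fatou m ⟨hcon, (hclN m hm x (subset_closure hxN)).trans_lt (h.R_lt' m)⟩
  -- `m₁`
  have hcptN : IsCompact (closure N) := hNbd.isCompact_closure
  have hev : ∀ᶠ m in atTop, ∀ i ∈ Finset.range M₀, ∀ z ∈ closure N, ‖f^[i] z‖ < r m / 2 := by
    rw [eventually_all_finset]
    intro i _
    obtain ⟨C, hC⟩ := (hcptN.image (h.hf.continuous.iterate i).norm).bddAbove
    filter_upwards [h.r_tendsto.eventually_gt_atTop (2 * C)] with m hm z hz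
    have := hC ⟨z, hz, rfl⟩
    linarith
  obtain ⟨m₁, hm₁⟩ := (hev.and (eventually_ge_atTop M₀)).exists_forall_of_atTop
  have hm₁M : M₀ ≤ m₁ := (hm₁ m₁ le_rfl).2
  have horb : ∀ m, m₁ ≤ m → ∀ z ∈ closure N, ∀ i < m, ‖f^[i] z‖ < r m / 2 := by
    intro m hm z hz i hi
    by_cases hiM : i < M₀
    · exact (hm₁ m hm).1 i (Finset.mem_range.2 hiM) z hz
    · push Not at hiM
      have h1 := hclN i hiM z hz
      have h2 := h.R_lt i
      have h3 : r (i + 1) ≤ r m := h.r_mono (by omega)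
      linarith
  have hcmp : ∀ m, m₁ ≤ m → ∀ y ∈ Vc f^[m] (s m) x, ∃ q ∈ Vc f^[m + 1] (s (m + 1)) x,
      (1 - 1 / 2 ^ (m + 2)) * ‖y - x‖ ≤ ‖q - x‖ := by
    intro m hm
    exact (h.st m).cmp N x hN hNbd hxN (horb m hm)
      (fun z hz => (hM₀ m (hm₁M.trans hm) z hz).1) (hxs m (hm₁M.trans hm))
      (hxs (m + 1) ((hm₁M.trans hm).trans (Nat.le_succ m)))
  -- the starting point
  obtain ⟨y₀, hy₀, hy₀x⟩ : ∃ y₀ ∈ Vc f^[m₁] (s m₁) x, y₀ ≠ x := by
    obtain ⟨-, honto⟩ := Vc_onto (h.hf.continuous.iterate m₁) (iter_open h.ho m₁) hN hNbd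
      (s := s m₁) (a := x) (fun z hz => (h.s_lt_sq m₁).trans (hM₀ m₁ hm₁M z hz).1) hxN
      (hxs m₁ hm₁M)
    obtain ⟨z₀, hz₀, h0⟩ := honto 0 (by rw [norm_zero]; exact (h.s_pos m₁).le)
    obtain ⟨z₁, hz₁, h1⟩ := honto 1 (by rw [norm_one]; linarith [h.hs20 m₁])
    by_cases h2 : z₀ = x
    · refine ⟨z₁, hz₁, fun h3 => ?_⟩
      rw [h3, ← h2, h0] at h1
      exact zero_ne_one h1
    · exact ⟨z₀, hz₀, h2⟩
  set c₀ : ℝ := ‖y₀ - x‖ with hc₀
  have hc₀pos : 0 < c₀ := by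
    rw [hc₀, norm_pos_iff, sub_ne_zero]
    exact hy₀x
  have hind : ∀ k : ℕ, ∃ y ∈ Vc f^[m₁ + k] (s (m₁ + k)) x,
      c₀ * (1 / 2 + 1 / 2 ^ (m₁ + k + 1)) ≤ ‖y - x‖ := by
    intro k
    induction k with
    | zero =>
      refine ⟨y₀, hy₀, ?_⟩
      have h1 : (1 : ℝ) / 2 ^ (m₁ + 0 + 1) ≤ 1 / 2 := by
        apply one_div_le_one_div_of_le (by norm_num)
        exact le_self_pow₀ (by norm_num) (by omega)
      calc c₀ * (1 / 2 + 1 / 2 ^ (m₁ + 0 + 1)) ≤ c₀ * (1 / 2 + 1 / 2) := by gcongr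
        _ = ‖y₀ - x‖ := by rw [hc₀]; ring
    | succ k ih =>
      obtain ⟨y, hy, hyx⟩ := ih
      obtain ⟨q, hq, hqx⟩ := hcmp (m₁ + k) (Nat.le_add_right _ _) y hy
      refine ⟨q, hq, ?_⟩
      set a : ℝ := 1 / 2 ^ (m₁ + k + 1) with ha
      have ha0 : 0 < a := by rw [ha]; positivity
      have ha1 : a ≤ 1 / 2 := by
        rw [ha]
        apply one_div_le_one_div_of_le (by norm_num)
        exact le_self_pow₀ (by norm_num) (by omega)
      have e1 : (1 : ℝ) / 2 ^ (m₁ + k + 2) = a / 2 := by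
        rw [ha, pow_succ (2 : ℝ) (m₁ + k + 1)]
        field_simp
      have e2 : (1 : ℝ) / 2 ^ (m₁ + (k + 1) + 1) = a / 2 := by
        rw [← e1]
        congr 2
      rw [e1] at hqx
      rw [e2]
      calc c₀ * (1 / 2 + a / 2) ≤ (1 - a / 2) * (c₀ * (1 / 2 + a)) := by
            have : 0 ≤ c₀ * (a * (1 / 2 - a)) := by
              apply mul_nonneg hc₀pos.le
              apply mul_nonneg ha0.le
              linarith
            nlinarith
        _ ≤ (1 - a / 2) * ‖y - x‖ := by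
            apply mul_le_mul_of_nonneg_left hyx
            linarith
        _ ≤ ‖q - x‖ := hqx
  -- contradiction
  obtain ⟨N', hN', hxN', hNb', hfr'⟩ := exists_sep hcl hx hX (half_pos hc₀pos)
  have hfrU' : frontier N' ⊆ U f s 0 := fun z hz => by
    by_contra h1
    exact hfr' z hz h1
  obtain ⟨M', hM'⟩ := h.comp_unif (hfc N' _ hNb') hfrU'
  obtain ⟨y, hy, hyx⟩ := hind M'
  have hsub : Vc f^[m₁ + M'] (s (m₁ + M')) x ⊆ N' := by
    apply subset_of_frontier (Vc_pre _ _ _) hN' (mem_Vc (hxs _ (by omega))) hxN'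
    intro z hz hzV
    have h1 := Vc_sub hzV
    have h2 := (hM' (m₁ + M') (by omega) z hz).1
    have h3 := h.s_lt_sq (m₁ + M')
    linarith
  have h1 := hNb' (subset_closure (hsub hy))
  rw [mem_ball, dist_eq_norm] at h1
  have h2 : 0 < c₀ * (1 / 2 ^ (m₁ + M' + 1)) := by positivity
  rw [mul_add] at hyx
  linarith

end Sys

end Pool.Agent.TH224.SC
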