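import Pool.Agent.TH224.SC.Level

/-!
Two disjoint spirals attached to / outside a disc: the complement is connected.
-/

set_option autoImplicit false

open Filter Topology Metric Set

namespace Pool.Agent.TH224.SC

/-- a spiral with `k` turns -/
noncomputable def spir (ρ η : ℝ) (k : ℕ) (b t : ℝ) : ℂ :=
  ((ρ + η * (t + b) : ℝ) : ℂ) * Complex.exp ((2 * Real.pi * k * t : ℝ) * Complex.I)

theorem continuous_spir (ρ η : ℝ) (k : ℕ) (b : ℝ) : Continuous (spir ρ η k b) := by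
  unfold spir
  fun_prop

theorem norm_spir {ρ η : ℝ} (hρ : 0 < ρ) (hη : 0 < η) (k : ℕ) {b t : ℝ} (hb : 0 ≤ b) (ht : 0 ≤ t) :
    ‖spir ρ η k b t‖ = ρ + η * (t + b) := by
  rw [spir, norm_mul, Complex.norm_exp_ofReal_mul_I, mul_one, Complex.norm_real,
    Real.norm_eq_abs, abs_of_nonneg (by positivity)]

/-- the disc with the first spiral attached -/
noncomputable def K0 (ρ η : ℝ) (k : ℕ) : Set ℂ := closedBall 0 ρ ∪ spir ρ η k 0 '' Icc 0 1

/-- the second spiral -/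
noncomputable def K1 (ρ η : ℝ) (k : ℕ) : Set ℂ := spir ρ η k (1 / (2 * k)) '' Icc 0 1

theorem isCompact_K0 (ρ η : ℝ) (k : ℕ) : IsCompact (K0 ρ η k) :=
  (isCompact_closedBall _ _).union (isCompact_Icc.image (continuous_spir _ _ _ _))

theorem isCompact_K1 (ρ η : ℝ) (k : ℕ) : IsCompact (K1 ρ η k) :=
  isCompact_Icc.image (continuous_spir _ _ _ _)

theorem isPreconnected_K0 {ρ η : ℝ} (hρ : 0 < ρ) (k : ℕ) : IsPreconnected (K0 ρ η k) := by
  apply IsPreconnected.union (ρ : ℂ)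
  · rw [mem_closedBall_zero_iff, Complex.norm_real, Real.norm_eq_abs, abs_of_pos hρ]
  · exact ⟨0, ⟨le_rfl, zero_le_one⟩, by simp [spir]⟩
  · exact (convex_closedBall _ _).isPreconnected
  · exact isPreconnected_Icc.image _ (continuous_spir _ _ _ _).continuousOn

theorem isPreconnected_K1 (ρ η : ℝ) (k : ℕ) : IsPreconnected (K1 ρ η k) :=
  isPreconnected_Icc.image _ (continuous_spir _ _ _ _).continuousOn

theorem half_k {k : ℕ} (hk : 0 < k) : 0 < 1 / (2 * (k : ℝ)) ∧ 1 / (2 * (k : ℝ)) ≤ 1 / 2 := by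
  have h1 : (1 : ℝ) ≤ k := by exact_mod_cast hk
  refine ⟨by positivity, ?_⟩
  apply one_div_le_one_div_of_le (by norm_num)
  linarith

theorem norm_K0 {ρ η : ℝ} (hρ : 0 < ρ) (hη : 0 < η) {k : ℕ} {z : ℂ} (hz : z ∈ K0 ρ η k) :
    ‖z‖ ≤ ρ + η := by
  rcases hz with h | ⟨t, ht, rfl⟩
  · rw [mem_closedBall_zero_iff] at h; linarith
  · rw [norm_spir hρ hη k le_rfl ht.1, add_zero]
    nlinarith [ht.2]

theorem norm_K1 {ρ η : ℝ} (hρ : 0 < ρ) (hη : 0 < η) {k : ℕ} (hk : 0 < k) {z : ℂ}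
    (hz : z ∈ K1 ρ η k) : ρ < ‖z‖ ∧ ‖z‖ ≤ ρ + η * (3 / 2) := by
  obtain ⟨h1, h2⟩ := half_k hk
  obtain ⟨t, ht, rfl⟩ := hz
  rw [norm_spir hρ hη k h1.le ht.1]
  constructor
  · have : 0 < η * (t + 1 / (2 * (k : ℝ))) := mul_pos hη (by linarith [ht.1])
    linarith
  · have : η * (t + 1 / (2 * (k : ℝ))) ≤ η * (3 / 2) :=
      mul_le_mul_of_nonneg_left (by linarith [ht.2]) hη.le
    linarith

/-- the phase -/
noncomputable def ph (ρ η : ℝ) (k : ℕ) (z : ℂ) : ℂ :=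
  z * Complex.exp ((-(2 * Real.pi * k * ((‖z‖ - ρ) / η)) : ℝ) * Complex.I)

theorem ph_spir {ρ η : ℝ} (hρ : 0 < ρ) (hη : 0 < η) (k : ℕ) {b t : ℝ} (hb : 0 ≤ b) (ht : 0 ≤ t) :
    ph ρ η k (spir ρ η k b t) = (‖spir ρ η k b t‖ : ℂ) *
      Complex.exp ((-(2 * Real.pi * k * b) : ℝ) * Complex.I) := by
  rw [ph, norm_spir hρ hη k hb ht, spir, mul_assoc, ← Complex.exp_add]
  congr 2
  rw [← add_mul, ← Complex.ofReal_add]
  congr 2
  field_simp
  ring

theorem ph_sq0 {ρ η : ℝ} (hρ : 0 < ρ) (hη : 0 < η) (k : ℕ) {t : ℝ} (ht : 0 ≤ t) :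
    ph ρ η k (spir ρ η k 0 t) ^ 2 = (‖spir ρ η k 0 t‖ : ℂ) ^ 2 := by
  rw [ph_spir hρ hη k le_rfl ht]
  simp

theorem ph_sq1 {ρ η : ℝ} (hρ : 0 < ρ) (hη : 0 < η) {k : ℕ} (hk : 0 < k) {t : ℝ} (ht : 0 ≤ t) :
    ph ρ η k (spir ρ η k (1 / (2 * k)) t) ^ 2 = (‖spir ρ η k (1 / (2 * k)) t‖ : ℂ) ^ 2 := by
  have hk' : (k : ℝ) ≠ 0 := by exact_mod_cast hk.ne'
  rw [ph_spir hρ hη k (half_k hk).1.le ht]
  have h1 : (-(2 * Real.pi * k * (1 / (2 * k))) : ℝ) = -Real.pi := by field_simp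
  rw [h1]
  have h2 : Complex.exp ((-Real.pi : ℝ) * Complex.I) = -1 := by
    push_cast
    rw [neg_mul, Complex.exp_neg, Complex.exp_pi_mul_I]
    norm_num
  rw [h2]
  ring

theorem disj_K {ρ η : ℝ} (hρ : 0 < ρ) (hη : 0 < η) {k : ℕ} (hk : 0 < k) :
    Disjoint (K0 ρ η k) (K1 ρ η k) := by
  rw [Set.disjoint_left]
  intro z h0 h1
  have hn := (norm_K1 hρ hη hk h1).1
  rcases h0 with h | ⟨t, ht, rfl⟩
  · rw [mem_closedBall_zero_iff] at h; linarith
  · obtain ⟨t', ht', heq⟩ := h1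
    have e1 := ph_spir hρ hη k le_rfl ht.1
    have e2 := ph_spir hρ hη k (half_k hk).1.le ht'.1
    rw [heq, e1] at e2
    have hk' : (k : ℝ) ≠ 0 := by exact_mod_cast hk.ne'
    have h1 : (-(2 * Real.pi * k * (1 / (2 * k))) : ℝ) = -Real.pi := by field_simp
    rw [h1] at e2
    have h2 : Complex.exp ((-Real.pi : ℝ) * Complex.I) = -1 := by
      push_cast
      rw [neg_mul, Complex.exp_neg, Complex.exp_pi_mul_I]
      norm_num
    rw [h2] at e2
    have h3 : Complex.exp ((-(2 * Real.pi * k * 0) : ℝ) * Complex.I) = 1 := by simp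
    rw [h3, mul_one] at e2
    have hpos : (0 : ℝ) < ‖spir ρ η k 0 t‖ := by linarith
    have h4 : ((‖spir ρ η k 0 t‖ : ℝ) : ℂ) ≠ 0 := by exact_mod_cast hpos.ne'
    have h5 : (1 : ℂ) = -1 := by
      apply mul_left_cancel₀ h4
      rw [mul_one]; exact e2
    norm_num at h5

theorem compl_K {ρ η : ℝ} (hρ : 0 < ρ) (hη : 0 < η) {k : ℕ} (hk : 0 < k) :
    IsPreconnected (K0 ρ η k ∪ K1 ρ η k)ᶜ := by
  set K := K0 ρ η k ∪ K1 ρ η k with hK
  have hKc : IsClosed K := ((isCompact_K0 _ _ _).union (isCompact_K1 _ _ _)).isClosed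
  set T : ℝ := ρ + 2 * η with hT
  have hTpos : 0 < T := by positivity
  have hout : {z : ℂ | T ≤ ‖z‖} ⊆ Kᶜ := by
    rintro z hz (h | h)
    · have := norm_K0 hρ hη h
      have hz' : T ≤ ‖z‖ := hz
      linarith
    · have := (norm_K1 hρ hη hk h).2
      have hz' : T ≤ ‖z‖ := hz
      linarith
  have hnot : ∀ z : ℂ, ρ < ‖z‖ → ph ρ η k z ^ 2 ≠ (‖z‖ : ℂ) ^ 2 → z ∈ Kᶜ := by
    rintro z hz hp ((h | ⟨t, ht, rfl⟩) | ⟨t, ht, rfl⟩)
    · rw [mem_closedBall_zero_iff] at h; linarith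
    · exact hp (ph_sq0 hρ hη k ht.1)
    · exact hp (ph_sq1 hρ hη hk ht.1)
  apply isPreconnected_of_forall (T : ℂ)
  intro y hy
  have hyρ : ρ < ‖y‖ := by
    by_contra h
    push Not at h
    exact hy (Or.inl (Or.inl (by rwa [mem_closedBall_zero_iff])))
  have hy0 : 0 < ‖y‖ := by linarith
  have hyne : (‖y‖ : ℂ) ≠ 0 := by exact_mod_cast hy0.ne'
  set a : ℝ → ℂ := fun θ => y * Complex.exp (θ * Complex.I) with ha
  have hac : Continuous a := by rw [ha]; fun_prop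
  have han : ∀ θ, ‖a θ‖ = ‖y‖ := by
    intro θ
    simp only [ha]
    rw [norm_mul, Complex.norm_exp_ofReal_mul_I, mul_one]
  have ha0 : a 0 = y := by simp [ha]
  obtain ⟨ε, hε, hεK⟩ : ∃ ε > 0, ∀ θ : ℝ, |θ| < ε → a θ ∈ Kᶜ := by
    have h1 : a ⁻¹' Kᶜ ∈ 𝓝 (0 : ℝ) := by
      apply hac.continuousAt.preimage_mem_nhds
      rw [ha0]
      exact hKc.isOpen_compl.mem_nhds hy
    obtain ⟨ε, hε, h2⟩ := Metric.mem_nhds_iff.1 h1
    refine ⟨ε, hε, fun θ hθ => h2 ?_⟩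
    rw [mem_ball_zero_iff]
    exact hθ
  have hpa : ∀ θ : ℝ, ph ρ η k (a θ) = ph ρ η k y * Complex.exp (θ * Complex.I) := by
    intro θ
    rw [ph, han, ph]
    simp only [ha]
    ring
  obtain ⟨θ, hθ0, hθε, hθ⟩ : ∃ θ : ℝ, 0 < θ ∧ θ < ε ∧ ph ρ η k (a θ) ^ 2 ≠ (‖a θ‖ : ℂ) ^ 2 := by
    by_contra hcon
    push Not at hcon
    set θ₁ : ℝ := min ε 1 / 2 with hθ₁
    have hm : 0 < min ε 1 := lt_min hε one_pos
    have h1 := hcon θ₁ (by positivity) (by linarith [min_le_left ε 1])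
    have h2 := hcon (θ₁ / 2) (by positivity) (by linarith [min_le_left ε 1])
    rw [hpa, han] at h1 h2
    have h3 : Complex.exp (θ₁ * Complex.I) = 1 := by
      have e1 : Complex.exp (((θ₁ / 2 : ℝ) : ℂ) * Complex.I) ^ 2 = Complex.exp (θ₁ * Complex.I) := by
        rw [← Complex.exp_nat_mul]
        congr 1
        push_cast
        ring
      rw [mul_pow, e1] at h2
      rw [mul_pow] at h1
      have e2 : (‖y‖ : ℂ) ^ 2 ≠ 0 := pow_ne_zero 2 hyne
      have e3 : ph ρ η k y ^ 2 * Complex.exp (θ₁ * Complex.I) ≠ 0 := by rw [h2]; exact e2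
      apply mul_left_cancel₀ e3
      rw [mul_one]
      calc ph ρ η k y ^ 2 * Complex.exp (θ₁ * Complex.I) * Complex.exp (θ₁ * Complex.I)
          = ph ρ η k y ^ 2 * Complex.exp (θ₁ * Complex.I) ^ 2 := by ring
        _ = (‖y‖ : ℂ) ^ 2 := h1
        _ = _ := h2.symm
    rw [Complex.exp_eq_one_iff] at h3
    obtain ⟨n, hn⟩ := h3
    have h4 : (θ₁ : ℂ) = n * (2 * Real.pi) := by
      have : (θ₁ : ℂ) * Complex.I = (n * (2 * Real.pi)) * Complex.I := by rw [hn]; ring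
      exact mul_right_cancel₀ Complex.I_ne_zero this
    have h5 : θ₁ = n * (2 * Real.pi) := by exact_mod_cast h4
    have hpi := Real.pi_gt_three
    have h6 : 0 < θ₁ := by positivity
    have h7 : θ₁ < 1 := by linarith [min_le_right ε 1]
    have h8 : (0 : ℝ) < n := by
      by_contra h
      push Not at h
      nlinarith
    have h9 : (1 : ℝ) ≤ n := by exact_mod_cast (show (0 : ℤ) < n by exact_mod_cast h8)
    nlinarith
  set v := a θ with hv
  have hvn : ‖v‖ = ‖y‖ := han θ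
  set h : ℝ → ℂ := fun τ => v * (((‖v‖ + η * τ) / ‖v‖ : ℝ) : ℂ) *
    Complex.exp ((2 * Real.pi * k * τ : ℝ) * Complex.I) with hh
  have hhc : Continuous h := by rw [hh]; fun_prop
  have hv0 : 0 < ‖v‖ := by rw [hvn]; exact hy0
  have hhn : ∀ τ, 0 ≤ τ → ‖h τ‖ = ‖v‖ + η * τ := by
    intro τ hτ
    simp only [hh]
    rw [norm_mul, norm_mul, Complex.norm_exp_ofReal_mul_I, mul_one, Complex.norm_real,
      Real.norm_eq_abs, abs_of_nonneg (by positivity)]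
    field_simp
  have hph : ∀ τ, 0 ≤ τ → ph ρ η k (h τ) = ph ρ η k v * (((‖v‖ + η * τ) / ‖v‖ : ℝ) : ℂ) := by
    intro τ hτ
    rw [ph, hhn τ hτ, ph]
    simp only [hh]
    have : Complex.exp ((-(2 * Real.pi * k * ((‖v‖ + η * τ - ρ) / η)) : ℝ) * Complex.I) =
        Complex.exp ((-(2 * Real.pi * k * ((‖v‖ - ρ) / η)) : ℝ) * Complex.I) *
        Complex.exp ((-(2 * Real.pi * k * τ) : ℝ) * Complex.I) := by
      rw [← Complex.exp_add, ← add_mul, ← Complex.ofReal_add]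
      congr 3
      field_simp
      ring
    rw [this]
    have e2 : Complex.exp ((2 * Real.pi * k * τ : ℝ) * Complex.I) *
        Complex.exp ((-(2 * Real.pi * k * τ) : ℝ) * Complex.I) = 1 := by
      rw [← Complex.exp_add, ← add_mul, ← Complex.ofReal_add]
      simp
    linear_combination (v * (((‖v‖ + η * τ) / ‖v‖ : ℝ) : ℂ) *
      Complex.exp ((-(2 * Real.pi * k * ((‖v‖ - ρ) / η)) : ℝ) * Complex.I)) * e2
  have hhK : ∀ τ, 0 ≤ τ → h τ ∈ Kᶜ := by
    intro τ hτ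
    apply hnot
    · rw [hhn τ hτ]
      have : 0 ≤ η * τ := by positivity
      rw [hvn]; linarith
    · rw [hph τ hτ, hhn τ hτ]
      intro hcon
      apply hθ
      have hq : 0 < (‖v‖ + η * τ) / ‖v‖ := by positivity
      have hq' : (((‖v‖ + η * τ) / ‖v‖ : ℝ) : ℂ) ≠ 0 := by exact_mod_cast hq.ne'
      have e1 : ((‖v‖ + η * τ : ℝ) : ℂ) = (((‖v‖ + η * τ) / ‖v‖ : ℝ) : ℂ) * (‖v‖ : ℂ) := by
        rw [← Complex.ofReal_mul]
        congr 1
        field_simp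
      rw [e1] at hcon
      apply mul_right_cancel₀ (pow_ne_zero 2 hq')
      linear_combination hcon
  refine ⟨(a '' Icc 0 θ ∪ h '' Ici 0) ∪ {z : ℂ | T ≤ ‖z‖}, ?_, ?_, ?_, ?_⟩
  · apply union_subset (union_subset _ _) hout
    · rintro _ ⟨x, hx, rfl⟩
      apply hεK
      rw [abs_of_nonneg hx.1]
      linarith [hx.2]
    · rintro _ ⟨x, hx, rfl⟩
      exact hhK x hx
  · right
    show T ≤ ‖(T : ℂ)‖
    rw [Complex.norm_real]; exact le_abs_self T
  · left; left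
    exact ⟨0, ⟨le_rfl, hθ0.le⟩, ha0⟩
  · have h1 : IsPreconnected (a '' Icc 0 θ) := isPreconnected_Icc.image _ hac.continuousOn
    have h2 : IsPreconnected (h '' Ici 0) := isPreconnected_Ici.image _ hhc.continuousOn
    have h3 : IsPreconnected (a '' Icc 0 θ ∪ h '' Ici 0) := by
      apply IsPreconnected.union v _ _ h1 h2
      · exact ⟨θ, ⟨hθ0.le, le_rfl⟩, rfl⟩
      · refine ⟨0, mem_Ici.2 le_rfl, ?_⟩
        simp only [hh]
        simp only [mul_zero, add_zero, Complex.ofReal_zero, zero_mul, Complex.exp_zero, mul_one]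
        rw [div_self hv0.ne', Complex.ofReal_one, mul_one]
    apply IsPreconnected.union (h (T / η)) _ _ h3 (isPreconnected_ge hTpos)
    · right
      exact ⟨T / η, by rw [mem_Ici]; positivity, rfl⟩
    · show T ≤ ‖h (T / η)‖
      rw [hhn _ (by positivity)]
      have : η * (T / η) = T := by field_simp
      rw [this]; linarith

end Pool.Agent.TH224.SC
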