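import Pool.Agent.TH224.SC.Level

/-!
Lifting a spiral that winds many times close to the circle of radius `s`: the lift comes close to
every point of modulus `s` in the component.
-/

set_option autoImplicit false

open Filter Topology Metric Set Polynomial

namespace Pool.Agent.TH224.SC

/-- polar coordinates with truncated radius -/
noncomputable def pol (ρ₀ s : ℝ) : C(ℝ × ℝ, ℂ) where
  toFun q := ((max ρ₀ (min q.1 s) : ℝ) : ℂ) * Complex.exp (q.2 * Complex.I)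
  continuous_toFun := by fun_prop

theorem pol_apply (ρ₀ s u θ : ℝ) :
    pol ρ₀ s (u, θ) = ((max ρ₀ (min u s) : ℝ) : ℂ) * Complex.exp (θ * Complex.I) := rfl

theorem pol_in {ρ₀ s u : ℝ} (hu : u ∈ Icc ρ₀ s) (θ : ℝ) :
    pol ρ₀ s (u, θ) = (u : ℂ) * Complex.exp (θ * Complex.I) := by
  rw [pol_apply, min_eq_left hu.2, max_eq_right hu.1]

theorem norm_pol {ρ₀ s : ℝ} (h0 : 0 < ρ₀) (u θ : ℝ) :
    ‖pol ρ₀ s (u, θ)‖ = max ρ₀ (min u s) := by
  rw [pol_apply, norm_mul, Complex.norm_exp_ofReal_mul_I, mul_one, Complex.norm_real,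
    Real.norm_eq_abs, abs_of_nonneg (h0.le.trans (le_max_left _ _))]

theorem pol_periodic (ρ₀ s u θ : ℝ) (m : ℕ) :
    pol ρ₀ s (u, θ + 2 * Real.pi * m) = pol ρ₀ s (u, θ) := by
  rw [pol_apply, pol_apply]
  congr 1
  have : ((θ + 2 * Real.pi * m : ℝ) : ℂ) * Complex.I = θ * Complex.I + (m : ℤ) * (2 * Real.pi * Complex.I) := by
    push_cast; ring
  rw [this, Complex.exp_add, Complex.exp_int_mul_two_pi_mul_I, mul_one]

section

variable {p : ℂ[X]} {ρ₀ s : ℝ}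

/-- `Φ` is a lift of the polar coordinates -/
def IsLift (p : ℂ[X]) (ρ₀ s : ℝ) (Φ : C(ℝ × ℝ, ℂ)) : Prop := ∀ q, p.eval (Φ q) = pol ρ₀ s q

theorem exists_lift (h0 : 0 < ρ₀) (h1 : ρ₀ ≤ s)
    (hreg : ∀ z, ρ₀ ≤ ‖p.eval z‖ → ‖p.eval z‖ ≤ s → p.derivative.eval z ≠ 0)
    (q₀ : ℝ × ℝ) {e : ℂ} (he : p.eval e = pol ρ₀ s q₀) :
    ∃! Φ : C(ℝ × ℝ, ℂ), Φ q₀ = e ∧ IsLift p ρ₀ s Φ := by
  have h := p.isCoveringMapOn_eval.existsUnique_continuousMap_lifts (pol ρ₀ s) he (by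
    rintro ⟨u, θ⟩ ⟨k, hk, hk2⟩
    have h2 : ‖p.eval k‖ = max ρ₀ (min u s) := by
      have : p.eval k = pol ρ₀ s (u, θ) := hk2
      rw [this, norm_pol h0]
    exact hreg k (by rw [h2]; exact le_max_left _ _)
      (by rw [h2]; exact max_le h1 (min_le_right _ _)) hk)
  obtain ⟨Φ, ⟨h2, h3⟩, h4⟩ := h
  refine ⟨Φ, ⟨h2, fun q => congrFun h3 q⟩, fun Ψ ⟨h5, h6⟩ => h4 Ψ ⟨h5, funext h6⟩⟩

theorem lift_unique (h0 : 0 < ρ₀) (h1 : ρ₀ ≤ s)
    (hreg : ∀ z, ρ₀ ≤ ‖p.eval z‖ → ‖p.eval z‖ ≤ s → p.derivative.eval z ≠ 0)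
    {Φ Ψ : C(ℝ × ℝ, ℂ)} (hΦ : IsLift p ρ₀ s Φ) (hΨ : IsLift p ρ₀ s Ψ) {q₀ : ℝ × ℝ}
    (h : Φ q₀ = Ψ q₀) : Φ = Ψ :=
  (exists_lift h0 h1 hreg q₀ (hΨ q₀)).unique ⟨h, hΦ⟩ ⟨rfl, hΨ⟩

/-- every lift is periodic in the angle with period `2πP`, `1 ≤ P ≤ deg p` -/
theorem lift_periodic (hp : 0 < p.natDegree) (h0 : 0 < ρ₀) (h1 : ρ₀ ≤ s)
    (hreg : ∀ z, ρ₀ ≤ ‖p.eval z‖ → ‖p.eval z‖ ≤ s → p.derivative.eval z ≠ 0)
    {Φ : C(ℝ × ℝ, ℂ)} (hΦ : IsLift p ρ₀ s Φ) :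
    ∃ P : ℕ, 1 ≤ P ∧ P ≤ p.natDegree ∧ ∀ u θ : ℝ, Φ (u, θ + 2 * Real.pi * P) = Φ (u, θ) := by
  classical
  set w : ℂ := pol ρ₀ s (s, 0) with hw
  have hne : p - C w ≠ 0 := by
    intro h
    have h2 : p = C w := sub_eq_zero.1 h
    rw [h2, natDegree_C] at hp
    exact lt_irrefl _ hp
  set F : Finset ℂ := (p - C w).roots.toFinset with hF
  have hFc : F.card ≤ p.natDegree := by
    calc F.card ≤ Multiset.card (p - C w).roots := Multiset.toFinset_card_le _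
      _ ≤ (p - C w).natDegree := card_roots' _
      _ = p.natDegree := natDegree_sub_C
  have hmaps : Set.MapsTo (fun j : ℕ => Φ (s, 2 * Real.pi * j)) (Finset.range (p.natDegree + 1)) F := by
    intro j _
    rw [hF, Finset.mem_coe, Multiset.mem_toFinset, mem_roots hne, IsRoot, eval_sub, eval_C,
      sub_eq_zero, hΦ, hw]
    have := pol_periodic ρ₀ s s 0 j
    rw [zero_add] at this
    exact this
  obtain ⟨i, hi, j, hj, hij, he⟩ := Finset.exists_ne_map_eq_of_card_lt_of_maps_to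
    (by rw [Finset.card_range]; omega) hmaps
  wlog hlt : i < j generalizing i j
  · exact this j hj i hi hij.symm he.symm (by omega)
  have hj' := Finset.mem_range.1 hj
  refine ⟨j - i, by omega, by omega, ?_⟩
  set Ψ : C(ℝ × ℝ, ℂ) := ⟨fun q => Φ (q.1, q.2 + 2 * Real.pi * (j - i : ℕ)), by fun_prop⟩ with hΨ
  have hΨl : IsLift p ρ₀ s Ψ := by
    rintro ⟨u, θ⟩
    show p.eval (Φ (u, θ + 2 * Real.pi * (j - i : ℕ))) = _
    rw [hΦ, pol_periodic]
  have heq : Ψ = Φ := by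
    apply lift_unique h0 h1 hreg hΨl hΦ (q₀ := (s, 2 * Real.pi * i))
    show Φ (s, 2 * Real.pi * i + 2 * Real.pi * (j - i : ℕ)) = _
    rw [he]
    congr 2
    push_cast [Nat.cast_sub hlt.le]
    ring
  intro u θ
  have := DFunLike.congr_fun heq (u, θ)
  exact this

/-- the lift covers the rim -/
theorem lift_covers (hp : 0 < p.natDegree) (h0 : 0 < ρ₀) (h1 : ρ₀ ≤ s)
    (hreg : ∀ z, ρ₀ ≤ ‖p.eval z‖ → ‖p.eval z‖ ≤ s → p.derivative.eval z ≠ 0)
    {Φ : C(ℝ × ℝ, ℂ)} (hΦ : IsLift p ρ₀ s Φ) {a : ℂ} {q₀ : ℝ × ℝ} (ha : Φ q₀ = a) {y : ℂ}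
    (hy : y ∈ Vc (fun z => p.eval z) s a) (hys : ‖p.eval y‖ = s) : ∃ θ : ℝ, Φ (s, θ) = y := by
  have hs : 0 < s := h0.trans_le h1
  set V := Vc (fun z => p.eval z) s a with hV
  set Cr : Set ℂ := V ∩ {z | ‖p.eval z‖ = s} with hCr
  have hCp : IsPreconnected Cr := rim_Vc hp s a
  obtain ⟨P, hP1, -, hper⟩ := lift_periodic hp h0 h1 hreg hΦ
  -- the image
  set I : Set ℂ := range fun θ : ℝ => Φ (s, θ) with hI
  have hIc : IsClosed I := by
    have h2 : I = (fun θ : ℝ => Φ (s, θ)) '' Icc 0 (2 * Real.pi * P) := by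
      have hperf : Function.Periodic (fun θ : ℝ => Φ (s, θ)) (2 * Real.pi * P) := fun θ => hper s θ
      have hpos : 0 < 2 * Real.pi * P := by
        have : (1 : ℝ) ≤ P := by exact_mod_cast hP1
        have := Real.pi_pos
        positivity
      have := hperf.image_Icc hpos 0
      rw [zero_add] at this
      exact this.symm
    rw [h2]
    exact (isCompact_Icc.image (by fun_prop)).isClosed
  have hsmem : s ∈ Icc ρ₀ s := ⟨h1, le_rfl⟩
  have hrange : range Φ ⊆ V := by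
    apply sub_Vc
    · rw [← image_univ]
      exact isPreconnected_univ.image _ Φ.continuous.continuousOn
    · exact ⟨q₀, ha⟩
    · rintro _ ⟨⟨u, θ⟩, rfl⟩
      rw [hΦ, norm_pol h0]
      exact max_le h1 (min_le_right _ _)
  have hIC : I ⊆ Cr := by
    rintro _ ⟨θ, rfl⟩
    refine ⟨hrange ⟨_, rfl⟩, ?_⟩
    simp only [Set.mem_ofPred_eq]
    rw [hΦ, norm_pol h0, min_self, max_eq_right h1]
  -- relative openness
  have hloc : ∀ c ∈ I, ∃ N : Set ℂ, IsOpen N ∧ c ∈ N ∧ N ∩ Cr ⊆ I := by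
    rintro _ ⟨θ, rfl⟩
    set c := Φ (s, θ) with hc
    have hpc : p.eval c = (s : ℂ) * Complex.exp (θ * Complex.I) := by
      rw [hc, hΦ, pol_in hsmem]
    have hpc0 : p.eval c ≠ 0 := by
      rw [hpc]
      exact mul_ne_zero (by exact_mod_cast hs.ne') (Complex.exp_ne_zero _)
    have hpcn : ‖p.eval c‖ = s := by
      rw [hpc, norm_mul, Complex.norm_exp_ofReal_mul_I, mul_one, Complex.norm_real,
        Real.norm_eq_abs, abs_of_pos hs]
    have hd : p.derivative.eval c ≠ 0 := hreg c (by rw [hpcn]; exact h1) (by rw [hpcn])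
    have hstr := (p.hasStrictDerivAt c).hasStrictFDerivAt_equiv hd
    set e := hstr.toOpenPartialHomeomorph (fun z => p.eval z) with he
    have hce : c ∈ e.source := hstr.mem_toOpenPartialHomeomorph_source
    have hinj : InjOn (fun z => p.eval z) e.source := e.injOn
    -- the angle
    set ang : ℂ → ℝ := fun z => θ + Complex.arg (p.eval z / p.eval c) with hang
    have hangc : ContinuousAt ang c := by
      apply ContinuousAt.add continuousAt_const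
      apply ContinuousAt.comp (g := Complex.arg) (f := fun z => p.eval z / p.eval c)
      · rw [div_self hpc0]
        exact Complex.continuousAt_arg (by simp)
      · exact (p.continuous.div_const _).continuousAt
    have hang0 : ang c = θ := by
      simp only [hang]
      rw [div_self hpc0, Complex.arg_one, add_zero]
    have hcomp : ContinuousAt (fun z => Φ (s, ang z)) c := by
      apply ContinuousAt.comp (g := Φ) (f := fun z => (s, ang z)) Φ.continuous.continuousAt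
      exact continuousAt_const.prodMk hangc
    have hev : ∀ᶠ z in 𝓝 c, z ∈ e.source ∧ Φ (s, ang z) ∈ e.source := by
      have e1 : ∀ᶠ z in 𝓝 c, z ∈ e.source := e.open_source.mem_nhds hce
      have e2 : e.source ∈ 𝓝 (Φ (s, ang c)) := by
        apply e.open_source.mem_nhds
        rw [hang0]
        exact hce
      have e3 : ∀ᶠ z in 𝓝 c, Φ (s, ang z) ∈ e.source := hcomp.preimage_mem_nhds e2
      exact e1.and e3
    obtain ⟨N, hN, hNo, hcN⟩ := _root_.mem_nhds_iff.1 hev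
    refine ⟨N, hNo, hcN, ?_⟩
    rintro z ⟨hzN, hzC⟩
    obtain ⟨hz1, hz2⟩ := hN hzN
    refine ⟨ang z, ?_⟩
    apply hinj hz2 hz1
    simp only
    rw [hΦ, pol_in hsmem]
    have hzs : ‖p.eval z‖ = s := hzC.2
    have hn : ‖p.eval z / p.eval c‖ = 1 := by rw [norm_div, hzs, hpcn, div_self hs.ne']
    have h5 := Complex.norm_mul_exp_arg_mul_I (p.eval z / p.eval c)
    rw [hn, Complex.ofReal_one, one_mul] at h5
    simp only [hang]
    push_cast
    rw [add_mul, Complex.exp_add, h5, ← mul_assoc, ← hpc]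
    field_simp
  choose! N hNo hcN hNI using hloc
  by_contra hcon
  push Not at hcon
  have hyI : y ∉ I := by
    rintro ⟨θ, hθ⟩
    exact hcon θ hθ
  obtain ⟨z, hzC, hz1, hz2⟩ := hCp (⋃ c ∈ I, N c) Iᶜ (isOpen_biUnion hNo) hIc.isOpen_compl (by
      intro z _
      by_cases h : z ∈ I
      · exact Or.inl (mem_biUnion h (hcN z h))
      · exact Or.inr h)
    (by
      have : Φ (s, 0) ∈ I := ⟨0, rfl⟩
      exact ⟨Φ (s, 0), hIC this, mem_biUnion this (hcN _ this)⟩)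
    ⟨y, ⟨hy, hys⟩, hyI⟩
  obtain ⟨c, hc, hzc⟩ := mem_iUnion₂.1 hz1
  exact hz2 (hNI c hc ⟨hzc, hzC⟩)

end

/-- Spirals with `deg p` turns close to the circle of radius `s`. -/
theorem star {p : ℂ[X]} (hp : 0 < p.natDegree) {s : ℝ} (hs : 0 < s)
    (hreg : ∀ z, ‖p.eval z‖ = s → p.derivative.eval z ≠ 0) {ε r : ℝ} (hε : 0 < ε) (hr : r < s) :
    ∃ ρ : ℝ, r < ρ ∧ ρ < s ∧ 0 < ρ ∧ ∀ (φ₀ : ℝ) (g : ℝ → ℝ), ContinuousOn g (Icc 0 1) →
      (∀ t ∈ Icc (0 : ℝ) 1, g t ∈ Icc ρ s) → ∀ a : ℂ,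
      p.eval a = (g 0 : ℂ) * Complex.exp (φ₀ * Complex.I) →
      ∀ E : Set ℂ, (∀ t ∈ Icc (0 : ℝ) 1,
        (g t : ℂ) * Complex.exp ((φ₀ + 2 * Real.pi * p.natDegree * t : ℝ) * Complex.I) ∈ E) →
      ∀ y ∈ Vc (fun z => p.eval z) s a, ‖p.eval y‖ = s →
        ∃ q ∈ connectedComponentIn ((fun z => p.eval z) ⁻¹' E) a, ‖q - y‖ < ε := by
  classical
  -- `ρ₀`
  have hder : p.derivative ≠ 0 := by
    intro h
    have := Polynomial.derivative_eq_zero.1 h
    omega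
  have hev : ∀ᶠ ρ in 𝓝[<] s, (∀ k ∈ p.derivative.roots.toFinset, ‖p.eval k‖ < s → ‖p.eval k‖ < ρ) ∧
      r < ρ ∧ 0 < ρ ∧ ρ < s := by
    have e1 : ∀ᶠ ρ in 𝓝[<] s, ∀ k ∈ p.derivative.roots.toFinset, ‖p.eval k‖ < s → ‖p.eval k‖ < ρ := by
      rw [eventually_all_finset]
      intro k _
      by_cases hk : ‖p.eval k‖ < s
      · filter_upwards [nhdsWithin_le_nhds (lt_mem_nhds hk)] with ρ hρ _ using hρ
      · exact Eventually.of_forall fun ρ h => absurd h hk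
    filter_upwards [e1, nhdsWithin_le_nhds (lt_mem_nhds hr), nhdsWithin_le_nhds (lt_mem_nhds hs),
      self_mem_nhdsWithin] with ρ h1 h2 h3 h4 using ⟨h1, h2, h3, h4⟩
  obtain ⟨ρ₀, hρ1, hρ2, hρ3, hρ4⟩ := hev.exists
  have hreg' : ∀ z, ρ₀ ≤ ‖p.eval z‖ → ‖p.eval z‖ ≤ s → p.derivative.eval z ≠ 0 := by
    intro z h1 h2 h3
    rcases h2.lt_or_eq with h | h
    · have : z ∈ p.derivative.roots.toFinset := by
        rw [Multiset.mem_toFinset, mem_roots hder]; exact h3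
      have := hρ1 z this h
      linarith
    · exact hreg z h h3
  -- all lifts
  set w : ℂ := pol ρ₀ s (s, 0) with hw
  have hne : p - C w ≠ 0 := by
    intro h
    have h2 : p = C w := sub_eq_zero.1 h
    rw [h2, natDegree_C] at hp
    exact lt_irrefl _ hp
  set F : Finset ℂ := (p - C w).roots.toFinset with hF
  have hmemF : ∀ e, e ∈ F ↔ p.eval e = w := by
    intro e
    rw [hF, Multiset.mem_toFinset, mem_roots hne, IsRoot, eval_sub, eval_C, sub_eq_zero]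
  have hlifts : ∀ e ∈ F, ∃ Φ : C(ℝ × ℝ, ℂ), Φ (s, 0) = e ∧ IsLift p ρ₀ s Φ := fun e he =>
    (exists_lift hρ3 hρ4.le hreg' (s, 0) ((hmemF e).1 he)).exists
  choose! Φ hΦ0 hΦ using hlifts
  -- uniform closeness
  have hunif : ∀ e ∈ F, ∀ᶠ ρ in 𝓝[<] s, ∀ u ∈ Icc ρ s, ∀ θ : ℝ, ‖Φ e (u, θ) - Φ e (s, θ)‖ < ε := by
    intro e he
    obtain ⟨P, hP1, -, hper⟩ := lift_periodic hp hρ3 hρ4.le hreg' (hΦ e he)
    have hpos : 0 < 2 * Real.pi * P := by
      have : (1 : ℝ) ≤ P := by exact_mod_cast hP1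
      have := Real.pi_pos
      positivity
    have huc : UniformContinuousOn (Φ e) (Icc ρ₀ s ×ˢ Icc 0 (2 * Real.pi * P)) :=
      (isCompact_Icc.prod isCompact_Icc).uniformContinuousOn_of_continuous
        (Φ e).continuous.continuousOn
    rw [Metric.uniformContinuousOn_iff] at huc
    obtain ⟨δ, hδ, hδ2⟩ := huc ε hε
    filter_upwards [nhdsWithin_le_nhds (lt_mem_nhds hρ4),
      nhdsWithin_le_nhds (lt_mem_nhds (show s - δ < s by linarith))] with ρ h1 h2 u hu θ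
    have hperf : Function.Periodic (fun θ : ℝ => fun u : ℝ => Φ e (u, θ)) (2 * Real.pi * P) := by
      intro θ
      funext u
      exact hper u θ
    obtain ⟨θ', hθ', heq⟩ := hperf.exists_mem_Ico₀ hpos θ
    have h3 := congrFun heq u
    have h4 := congrFun heq s
    rw [h3, h4, ← dist_eq_norm]
    apply hδ2 (u, θ') ⟨⟨h1.le.trans hu.1, hu.2⟩, hθ'.1, hθ'.2.le⟩ (s, θ')
      ⟨⟨hρ4.le, le_rfl⟩, hθ'.1, hθ'.2.le⟩
    rw [Prod.dist_eq, dist_self, max_eq_left dist_nonneg, Real.dist_eq, abs_lt]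
    constructor
    · linarith [hu.1]
    · linarith [hu.2]
  rw [← eventually_all_finset] at hunif
  have e2 : ∀ᶠ ρ in 𝓝[<] s, ρ₀ < ρ := nhdsWithin_le_nhds (lt_mem_nhds hρ4)
  have e3 : ∀ᶠ ρ in 𝓝[<] s, ρ < s := self_mem_nhdsWithin
  obtain ⟨ρ, hρa, hρb, hρc⟩ := (hunif.and (e2.and e3)).exists
  have hρc : ρ < s := hρc
  have hρb : ρ₀ < ρ := hρb
  refine ⟨ρ, hρ2.trans hρb, hρc, hρ3.trans hρb, ?_⟩
  intro φ₀ g hg hgr a ha E hE y hy hys
  have h01 : (0 : ℝ) ∈ Icc (0 : ℝ) 1 := ⟨le_rfl, zero_le_one⟩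
  have hg0 := hgr 0 h01
  have ha' : p.eval a = pol ρ₀ s (g 0, φ₀) := by
    rw [ha, pol_in ⟨hρb.le.trans hg0.1, hg0.2⟩]
  obtain ⟨Ψ, ⟨hΨ0, hΨ⟩, -⟩ := exists_lift hρ3 hρ4.le hreg' (g 0, φ₀) ha'
  set e := Ψ (s, 0) with he
  have heF : e ∈ F := (hmemF e).2 (hΨ _)
  have hΨe : Ψ = Φ e := lift_unique hρ3 hρ4.le hreg' hΨ (hΦ e heF) (q₀ := (s, 0))
    (by rw [hΦ0 e heF])
  obtain ⟨θy, hθy⟩ := lift_covers hp hρ3 hρ4.le hreg' hΨ hΨ0 hy hys
  obtain ⟨P, hP1, hP2, hper⟩ := lift_periodic hp hρ3 hρ4.le hreg' hΨ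
  have hpi := Real.pi_pos
  have hP1' : (1 : ℝ) ≤ P := by exact_mod_cast hP1
  have hP2' : (P : ℝ) ≤ p.natDegree := by exact_mod_cast hP2
  have hpos : 0 < 2 * Real.pi * P := by positivity
  have hperf : Function.Periodic (fun θ : ℝ => Ψ (s, θ)) (2 * Real.pi * P) := fun θ => hper s θ
  obtain ⟨θ', hθ', heq⟩ := hperf.exists_mem_Ico hpos θy φ₀
  set D : ℝ := 2 * Real.pi * p.natDegree with hD
  have hDpos : 0 < D := by
    have : (0 : ℝ) < p.natDegree := by exact_mod_cast hp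
    positivity
  set t : ℝ := (θ' - φ₀) / D with ht
  have ht01 : t ∈ Icc (0 : ℝ) 1 := by
    constructor
    · exact div_nonneg (by linarith [hθ'.1]) hDpos.le
    · rw [ht, div_le_one hDpos]
      have : 2 * Real.pi * P ≤ D := by rw [hD]; gcongr
      linarith [hθ'.2]
  have htθ : φ₀ + D * t = θ' := by
    rw [ht]; field_simp; ring
  -- the lifted path
  set path : ℝ → ℂ := fun t => Ψ (g t, φ₀ + D * t) with hpath
  have hpc : ContinuousOn path (Icc 0 1) := by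
    apply Ψ.continuous.comp_continuousOn
    exact hg.prodMk (by fun_prop)
  have hsub : path '' Icc 0 1 ⊆ connectedComponentIn ((fun z => p.eval z) ⁻¹' E) a := by
    apply (isPreconnected_Icc.image _ hpc).subset_connectedComponentIn
    · refine ⟨0, h01, ?_⟩
      simp only [hpath, mul_zero, add_zero]
      exact hΨ0
    · rintro _ ⟨t, ht, rfl⟩
      simp only [hpath, mem_preimage]
      rw [hΨ, pol_in ⟨hρb.le.trans (hgr t ht).1, (hgr t ht).2⟩]
      exact hE t ht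
  refine ⟨path t, hsub ⟨t, ht01, rfl⟩, ?_⟩
  simp only [hpath]
  rw [htθ, ← hθy, heq, hΨe]
  exact hρa e heF (g t) (hgr t ht01) θ'

end Pool.Agent.TH224.SC
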